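import Pool.Agent.R311.SE.D

set_option autoImplicit false

/-! Short polynomials which imitate `ζ ^ α`: coefficients, mean squares, and the mean against zeta
(adapted from `Pool.Agent.R311.SE`, where `α = 1 / 2`). -/

namespace Pool.Agent.W5h76.KS

open Finset MeasureTheory Filter Topology
open Pool.Agent.H306R2 Pool.Agent.R311.BS
open Pool.Agent.R311.SE (zl zl_cont Dp_cont mem_real TT_nonres)

noncomputable section

/-- `A^a` -/
def Cq (α N : ℝ) (a : ℕ) : ArithmeticFunction ℝ := cA 1 N α ^ a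

/-- `A^a ζ` -/
def zC (α N X : ℝ) (a : ℕ) : ArithmeticFunction ℝ := cA 1 N α ^ a * cA 1 X 1

/-- the short polynomial on the line -/
def CL (α N t : ℝ) : ℂ := Dp (cA 1 N α) N (1 / 2 + t * Complex.I)

lemma CL_cont (α N : ℝ) : Continuous (CL α N) := Dp_cont _ _

lemma Cq_Dp (α N : ℝ) (hN : 1 ≤ N) (a : ℕ) (t : ℝ) :
    Dp (Cq α N a) (N ^ a) (1 / 2 + t * Complex.I) = CL α N t ^ a :=
  (Dp_pow (cA 1 N α) N hN (cA_supp 1 N α) (1 / 2 + t * Complex.I) a).2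

lemma zC_Dp (α N X : ℝ) (hN : 1 ≤ N) (hX : 0 ≤ X) (a : ℕ) (t : ℝ) :
    Dp (zC α N X a) (N ^ a * X) (1 / 2 + t * Complex.I) = CL α N t ^ a * zX X t := by
  have h1 := Dp_pow (cA 1 N α) N hN (cA_supp 1 N α) (1 / 2 + t * Complex.I) a
  have h2 := Dp_mul (cA 1 N α ^ a) (cA 1 X 1) (N ^ a) X (by positivity) hX h1.1
    (cA_supp 1 X 1) (1 / 2 + t * Complex.I)
  rw [h1.2] at h2
  exact h2.2

lemma CL_norm {α : ℝ} (hα0 : 0 ≤ α) (hα1 : α ≤ 1) (N : ℝ) (hN : 1 ≤ N) (t : ℝ) : ‖CL α N t‖ ≤ N := by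
  have h := l1_PB (PB_cA_one 1 N (α := α) hα0 hα1) hN
  rw [zero_add, pow_one] at h
  exact (Dp_line_norm _ _ _).trans h

/-- the diagonal sum -/
def Sc (α N X : ℝ) (a b : ℕ) : ℝ := ∑ n ∈ Icc 1 ⌊N ^ b⌋₊, zC α N X a n * Cq α N b n / n

/-- the window average of zeta times short polynomials and exponentials -/
theorem LJ {α : ℝ} (hα0 : 0 ≤ α) (hα1 : α ≤ 1) (a b : ℕ) (M : Finset ℤ) (h0 : (0:ℤ) ∈ M) (C : ℤ → ℂ) (K : ℝ)
    (hK : ∑ m ∈ M, ‖C m‖ ≤ K) (N X Z ρ τ H R e₁ Ω L : ℝ) (hN : 1 ≤ N) (hX : 1 ≤ X)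
    (hNX : N ^ b ≤ N ^ a * X) (hρ : 0 ≤ ρ) (hρ1 : ρ ≤ 1) (hZ : N ^ b * Real.exp 1 ≤ Z)
    (hρ2 : ρ ≤ 1 / Z) (hH : 0 < H) (hR : 0 ≤ R) (he₁ : 0 ≤ e₁)
    (hL1 : l1 (zC α N X a) (N ^ a * X) ≤ L) (hL2 : l1 (Cq α N b) (N ^ b) ≤ L)
    (happ : ∀ t ∈ Set.Ioc (τ - R) (τ + R), ‖zl t - zX X t‖ ≤ e₁)
    (hnr : ∀ m ∈ M, m ≠ 0 → ∀ n l : ℕ, 1 ≤ n → (n:ℝ) ≤ N ^ a * X → 1 ≤ l → (l:ℝ) ≤ N ^ b →
      1 ≤ |m * Ω - Real.log n + Real.log l|) :
    ‖(∫ t in Set.Ioc (τ - R) (τ + R), ((∑ m ∈ M, C m * ex (m * Ω) t) *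
        (zl t * CL α N t ^ a * (starRingEnd ℂ) (CL α N t ^ b))) * (gw τ H t : ℂ)) -
      C 0 * ((Sc α N X a b : ℝ) : ℂ)‖ ≤
    K * (L * L * gq H ρ + L * L * (2 * Real.exp (-(R ^ 2 / (2 * H ^ 2)))) + e₁ * N ^ (a + b)) := by
  have hX0 : 0 ≤ X := by linarith
  have hY1 : 1 ≤ N ^ b := one_le_pow₀ hN
  have hK0 : 0 ≤ K := (sum_nonneg fun _ _ => norm_nonneg _).trans hK
  have hL0 : 0 ≤ L := (l1_nonneg _ _).trans hL2
  set Y := N ^ b with hYd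
  set Xf := N ^ a * X with hXfd
  obtain ⟨hGint0, hGval0⟩ := expansion M C (fun m => (m:ℝ) * Ω) (zC α N X a) (Cq α N b) Xf Y τ H hH
  set G : ℝ → ℂ := fun t => ((∑ m ∈ M, C m * ex (m * Ω) t) * Dp (zC α N X a) Xf (1 / 2 + t * Complex.I) *
      (starRingEnd ℂ) (Dp (Cq α N b) Y (1 / 2 + t * Complex.I))) * (gw τ H t : ℂ) with hG
  have hGint : Integrable G := hGint0
  have hGval : ∫ t, G t = ∑ m ∈ M, C m * TT (zC α N X a) (Cq α N b) Xf Y τ H (m * Ω) := by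
    rw [hG]
    rw [hGval0]
    refine sum_congr rfl fun m _ => ?_
    unfold TT
    rw [mul_sum]
    refine sum_congr rfl fun n _ => ?_
    rw [mul_sum]
    refine sum_congr rfl fun l _ => ?_
    ring
  have hLL : l1 (zC α N X a) Xf * l1 (Cq α N b) Y ≤ L * L := mul_le_mul hL1 hL2 (l1_nonneg _ _) hL0
  -- main term
  have hmain : ‖(∫ t, G t) - C 0 * ((Sc α N X a b : ℝ) : ℂ)‖ ≤ K * (L * L * gq H ρ) := by
    have e1 : (∫ t, G t) - C 0 * ((Sc α N X a b : ℝ) : ℂ) =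
        ∑ m ∈ M, C m * (TT (zC α N X a) (Cq α N b) Xf Y τ H (m * Ω) -
          if m = 0 then ((Sc α N X a b : ℝ) : ℂ) else 0) := by
      rw [hGval]
      simp only [mul_sub, sum_sub_distrib]
      congr 1
      simp only [mul_ite, mul_zero]
      rw [sum_ite_eq' M 0 (fun m => C m * ((Sc α N X a b : ℝ) : ℂ)), if_pos h0]
    rw [e1]
    have h1 : ∀ m ∈ M, ‖C m * (TT (zC α N X a) (Cq α N b) Xf Y τ H (m * Ω) -
          if m = 0 then ((Sc α N X a b : ℝ) : ℂ) else 0)‖ ≤ ‖C m‖ * (L * L * gq H ρ) := by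
      intro m hm
      rw [norm_mul]
      refine mul_le_mul_of_nonneg_left ?_ (norm_nonneg _)
      have hg := gq_nonneg H ρ
      by_cases h : m = 0
      · rw [if_pos h, h]
        have h2 := zero_freq (zC α N X a) (Cq α N b) Xf Y Z ρ τ H hY1 hNX hρ hρ1 hZ hρ2
        simp only [Int.cast_zero, zero_mul]
        refine le_trans (le_of_eq ?_) (h2.trans (mul_le_mul_of_nonneg_right hLL hg))
        rfl
      · rw [if_neg h, sub_zero]
        refine (TT_nonres _ _ _ _ τ H _ (hnr m hm h)).trans ?_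
        have hg1 := gq_nonneg H 1
        have h3 : gq H 1 ≤ gq H ρ := gq_far H 1 ρ hρ (by rw [abs_one]; exact hρ1)
        calc _ ≤ L * L * gq H 1 := mul_le_mul_of_nonneg_right hLL hg1
          _ ≤ _ := mul_le_mul_of_nonneg_left h3 (by positivity)
    refine (norm_sum_le_of_le _ h1).trans ?_
    rw [← sum_mul]
    have hg := gq_nonneg H ρ
    exact mul_le_mul_of_nonneg_right hK (by positivity)
  set I := Set.Ioc (τ - R) (τ + R) with hI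
  have hImeas : MeasurableSet I := measurableSet_Ioc
  have hgwI := gw_integrable τ H hH
  have hCn : ∀ t : ℝ, ‖∑ m ∈ M, C m * ex (m * Ω) t‖ ≤ K := by
    intro t
    refine (norm_sum_le _ _).trans (le_trans (sum_le_sum fun m _ => ?_) hK)
    rw [norm_mul, ex_norm, mul_one]
  -- outside
  have hout : ‖∫ t in Iᶜ, G t‖ ≤ K * (L * L * (2 * Real.exp (-(R ^ 2 / (2 * H ^ 2))))) := by
    calc ‖∫ t in Iᶜ, G t‖ ≤ ∫ t in Iᶜ, ‖G t‖ := norm_integral_le_integral_norm _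
      _ ≤ ∫ t in Iᶜ, K * (L * L) * gw τ H t := by
          refine setIntegral_mono_on hGint.norm.integrableOn (hgwI.const_mul _).integrableOn
            hImeas.compl fun t _ => ?_
          rw [hG]
          simp only
          have hg := gw_nonneg τ H t hH
          rw [norm_mul, norm_mul, norm_mul, RCLike.norm_conj, Complex.norm_real,
            Real.norm_of_nonneg hg]
          have a1 := hCn t
          have a2 : ‖Dp (zC α N X a) Xf (1 / 2 + t * Complex.I)‖ ≤ L := (Dp_line_norm _ _ _).trans hL1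
          have a3 : ‖Dp (Cq α N b) Y (1 / 2 + t * Complex.I)‖ ≤ L := (Dp_line_norm _ _ _).trans hL2
          calc _ ≤ K * L * L * gw τ H t := by gcongr
            _ = _ := by ring
      _ = K * (L * L) * ∫ t in Iᶜ, gw τ H t := integral_const_mul _ _
      _ ≤ K * (L * L) * (2 * Real.exp (-(R ^ 2 / (2 * H ^ 2)))) := by
          gcongr
          exact gw_tail τ H R hH hR
      _ = _ := by ring
  -- replacement
  set G' : ℝ → ℂ := fun t => ((∑ m ∈ M, C m * ex (m * Ω) t) *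
        (zl t * CL α N t ^ a * (starRingEnd ℂ) (CL α N t ^ b))) * (gw τ H t : ℂ) with hG'
  have hG'c : Continuous G' := by
    rw [hG']
    have c1 := CL_cont α N
    have c4 := zl_cont
    have c5 : Continuous fun t : ℝ => (starRingEnd ℂ) (CL α N t ^ b) :=
      Complex.continuous_conj.comp (c1.pow b)
    have c6 : Continuous fun t : ℝ => ∑ m ∈ M, C m * ex (m * Ω) t :=
      continuous_finsetSum _ fun m _ => (ex_cont _).const_mul _ |>.congr fun _ => rfl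
    have c7 : Continuous fun t : ℝ => (gw τ H t : ℂ) := Complex.continuous_ofReal.comp (gw_continuous τ H)
    fun_prop
  have hG'I : IntegrableOn G' I := (hG'c.integrableOn_Icc (a := τ - R) (b := τ + R)).mono_set
    Set.Ioc_subset_Icc_self
  have happx : ‖(∫ t in I, G' t) - ∫ t in I, G t‖ ≤ K * (e₁ * N ^ (a + b)) := by
    rw [← integral_sub hG'I hGint.integrableOn]
    calc ‖∫ t in I, (G' t - G t)‖ ≤ ∫ t in I, ‖G' t - G t‖ := norm_integral_le_integral_norm _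
      _ ≤ ∫ t in I, K * (e₁ * N ^ (a + b)) * gw τ H t := by
          refine setIntegral_mono_on (hG'I.sub hGint.integrableOn).norm
            (hgwI.const_mul _).integrableOn hImeas fun t ht => ?_
          have e1 : G' t - G t = ((∑ m ∈ M, C m * ex (m * Ω) t) *
              ((zl t - zX X t) * CL α N t ^ a * (starRingEnd ℂ) (CL α N t ^ b))) * (gw τ H t : ℂ) := by
            rw [hG, hG']
            simp only
            rw [hYd, hXfd, zC_Dp α N X hN hX0, Cq_Dp α N hN]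
            ring
          have hg := gw_nonneg τ H t hH
          rw [e1, norm_mul, norm_mul, norm_mul, norm_mul, RCLike.norm_conj, norm_pow, norm_pow,
            Complex.norm_real, Real.norm_of_nonneg hg]
          have b1 := happ t ht
          have a1 := hCn t
          have a3 := CL_norm hα0 hα1 N hN t
          calc _ ≤ K * (e₁ * N ^ a * N ^ b) * gw τ H t := by gcongr
            _ = _ := by rw [pow_add]; ring
      _ ≤ ∫ t, K * (e₁ * N ^ (a + b)) * gw τ H t := by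
          refine setIntegral_le_integral (hgwI.const_mul _) (Eventually.of_forall fun t => ?_)
          have := gw_nonneg τ H t hH
          simp only [Pi.zero_apply]
          positivity
      _ = K * (e₁ * N ^ (a + b)) := by
          rw [integral_const_mul, gw_integral τ H hH, mul_one]
  have hsplit := integral_add_compl hImeas hGint
  have e2 : (∫ t in I, G' t) - C 0 * ((Sc α N X a b : ℝ) : ℂ) =
      ((∫ t in I, G' t) - ∫ t in I, G t) + ((∫ t, G t) - C 0 * ((Sc α N X a b : ℝ) : ℂ)) -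
        ∫ t in Iᶜ, G t := by
    rw [← hsplit]; ring
  rw [e2]
  refine (norm_sub_le _ _).trans ?_
  have h5 := norm_add_le ((∫ t in I, G' t) - ∫ t in I, G t) ((∫ t, G t) - C 0 * ((Sc α N X a b : ℝ) : ℂ))
  linarith


lemma Cq_bd {α : ℝ} (hα0 : 0 ≤ α) (N : ℝ) (b n : ℕ) : 0 ≤ Cq α N b n ∧ Cq α N b n ≤ dv (b * α) n := by
  have h := cA_pow_le 1 N hα0 b n
  exact ⟨h.1, h.2.trans (xA_le 1 (by positivity) n)⟩

lemma zC_bd {α : ℝ} (hα0 : 0 ≤ α) (N X : ℝ) (a n : ℕ) (hn : (n:ℝ) ≤ X) :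
    0 ≤ zC α N X a n ∧ zC α N X a n ≤ dv (a * α + 1) n := by
  have h1 := mul_mono_le X (f := cA 1 N α ^ a) (f' := xA 1 ((a : ℝ) * α))
    (g := cA 1 X 1) (g' := xA 1 1) (fun m _ => cA_pow_le 1 N hα0 a m)
    (fun m hm => ⟨cA_nonneg 1 X zero_le_one m, cA_le 1 X zero_le_one m⟩) n hn
  rw [xA_mul] at h1
  exact ⟨h1.1, h1.2.trans (xA_le 1 (by positivity) n)⟩

lemma Cq_eq (α N : ℝ) (b n : ℕ) (hn : (n:ℝ) ≤ N) : Cq α N b n = dv (b * α) n := by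
  have h := cA_pow_eq 1 (N := N) α b n hn
  rw [xA_apply, if_pos (Nat.coprime_one_right n)] at h
  exact h

lemma zC_eq (α N X : ℝ) (hNX : N ≤ X) (a n : ℕ) (hn : (n:ℝ) ≤ N) : zC α N X a n = dv (a * α + 1) n := by
  have h1 := mul_congr_le N (f := cA 1 N α ^ a) (f' := xA 1 ((a : ℝ) * α))
    (g := cA 1 X 1) (g' := xA 1 1) (fun m hm => cA_pow_eq 1 α a m hm)
    (fun m hm => cA_eq 1 1 (hm.trans hNX)) n hn
  rw [xA_mul, xA_apply, if_pos (Nat.coprime_one_right n)] at h1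
  exact h1

lemma Sc_nonneg {α : ℝ} (hα0 : 0 ≤ α) (N X : ℝ) (a b : ℕ) (h : N ^ b ≤ X) : 0 ≤ Sc α N X a b := by
  unfold Sc
  refine sum_nonneg fun n hn => ?_
  obtain ⟨h1, h2⟩ := mem_real hn
  have h3 := (zC_bd hα0 N X a n (h2.trans h)).1
  have h4 := (Cq_bd hα0 N b n).1
  positivity

/-- the diagonal of the main term -/
lemma Sc_ge {α κ : ℝ} (hα0 : 0 ≤ α) (N X : ℝ) (hN : 1 ≤ N) (hNX : N ≤ X) (a b : ℕ) (hb : 1 ≤ b)
    (ha : a * α + 1 = κ) (hbκ : b * α = κ) (h : N ^ b ≤ X) :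
    ∑ n ∈ Icc 1 ⌊N⌋₊, dv κ n ^ 2 / n ≤ Sc α N X a b := by
  unfold Sc
  have hNN : N ≤ N ^ b := by
    calc N = N ^ 1 := (pow_one N).symm
      _ ≤ N ^ b := pow_le_pow_right₀ hN hb
  have hsub : Icc 1 ⌊N⌋₊ ⊆ Icc 1 ⌊N ^ b⌋₊ := Icc_subset_Icc_right (Nat.floor_le_floor hNN)
  refine le_trans (le_of_eq ?_) (sum_le_sum_of_subset_of_nonneg hsub fun n hn _ => ?_)
  · refine sum_congr rfl fun n hn => ?_
    obtain ⟨h1, h2⟩ := mem_real hn
    rw [zC_eq α N X hNX _ n h2, Cq_eq α N b n h2, ha, hbκ]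
    ring
  · obtain ⟨h1, h2⟩ := mem_real hn
    have h3 := (zC_bd hα0 N X a n (h2.trans h)).1
    have h4 := (Cq_bd hα0 N b n).1
    positivity

lemma l1_zC {α : ℝ} (hα0 : 0 ≤ α) (hα1 : α ≤ 1) (N X : ℝ) (hN : 1 ≤ N) (hX : 1 ≤ X) (a q : ℕ) (ha : a ≤ q) :
    l1 (zC α N X a) (N ^ a * X) ≤ (N ^ q * X) ^ (q + 2) := by
  have h1 := (PB_cA_one 1 N (α := α) hα0 hα1).pow a
  have h2 := h1.mul (PB_cA_one 1 X (α := 1) (by norm_num) (by norm_num))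
  have h3 : PB (zC α N X a) (a + 1) := h2.mono (by simp)
  have hY : 1 ≤ N ^ a * X := one_le_mul_of_one_le_of_one_le (one_le_pow₀ hN) hX
  have h4 := l1_PB h3 hY
  have h5 : N ^ a * X ≤ N ^ q * X := by
    have := pow_le_pow_right₀ hN ha
    gcongr
  calc _ ≤ (N ^ a * X) ^ (a + 1 + 1) := h4
    _ ≤ (N ^ q * X) ^ (a + 1 + 1) := pow_le_pow_left₀ (by linarith) h5 _
    _ ≤ _ := pow_le_pow_right₀ (hY.trans h5) (by omega)

lemma l1_Cq {α : ℝ} (hα0 : 0 ≤ α) (hα1 : α ≤ 1) (N X : ℝ) (hN : 1 ≤ N) (hX : 1 ≤ X) (b q : ℕ) (hb : b ≤ q) :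
    l1 (Cq α N b) (N ^ b) ≤ (N ^ q * X) ^ (q + 2) := by
  have h1 := (PB_cA_one 1 N (α := α) hα0 hα1).pow b
  have h3 : PB (Cq α N b) b := h1.mono (by simp)
  have hY : 1 ≤ N ^ b := one_le_pow₀ hN
  have h4 := l1_PB h3 hY
  have h5 : N ^ b ≤ N ^ q * X := by
    have h6 := pow_le_pow_right₀ hN hb
    have h7 : 0 ≤ N ^ q := by positivity
    nlinarith
  calc _ ≤ (N ^ b) ^ (b + 1) := h4
    _ ≤ (N ^ q * X) ^ (b + 1) := pow_le_pow_left₀ (by linarith) h5 _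
    _ ≤ _ := pow_le_pow_right₀ (hY.trans h5) (by omega)

/-- mean squares of Dirichlet polynomials of length at most the width of the window -/
theorem sqm (κ : ℝ) (f : ℕ → ℝ) (X τ H : ℝ) (hX : 1 ≤ X) (hH : 0 < H)
    (hf : ∀ n : ℕ, (n:ℝ) ≤ X → |f n| ≤ dv κ n) :
    Integrable (fun t : ℝ => ‖Dp f X (1 / 2 + t * Complex.I)‖ ^ 2 * gw τ H t) ∧
    ∫ t : ℝ, ‖Dp f X (1 / 2 + t * Complex.I)‖ ^ 2 * gw τ H t ≤
      (∑ n ∈ Icc 1 ⌊X⌋₊, dv κ n ^ 2 / n) * ((1 + 4 * X ^ 2 / H ^ 2) * Lam) := by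
  obtain ⟨hI, hE⟩ := expansion ({()} : Finset Unit) (fun _ => (1:ℂ)) (fun _ => (0:ℝ)) f f X X τ H hH
  have e0 : ∀ t : ℝ, ((∑ i ∈ ({()} : Finset Unit), (1:ℂ) * ex 0 t) * Dp f X (1 / 2 + t * Complex.I) *
      (starRingEnd ℂ) (Dp f X (1 / 2 + t * Complex.I))) * (gw τ H t : ℂ) =
      ((‖Dp f X (1 / 2 + t * Complex.I)‖ ^ 2 * gw τ H t : ℝ) : ℂ) := by
    intro t
    have e1 : ex 0 t = 1 := by unfold ex; simp
    rw [sum_singleton, e1, one_mul, one_mul, Complex.mul_conj, Complex.normSq_eq_norm_sq]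
    push_cast
    rfl
  simp only [e0] at hI hE
  have hI' : Integrable (fun t : ℝ => ‖Dp f X (1 / 2 + t * Complex.I)‖ ^ 2 * gw τ H t) := by
    refine hI.re.congr (Eventually.of_forall fun t => ?_)
    exact Complex.ofReal_re _
  refine ⟨hI', ?_⟩
  rw [integral_complex_ofReal] at hE
  have hnn : 0 ≤ ∫ t : ℝ, ‖Dp f X (1 / 2 + t * Complex.I)‖ ^ 2 * gw τ H t :=
    integral_nonneg fun t => mul_nonneg (by positivity) (gw_nonneg τ H t hH)
  have h1 : ∫ t : ℝ, ‖Dp f X (1 / 2 + t * Complex.I)‖ ^ 2 * gw τ H t =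
      ‖((∫ t : ℝ, ‖Dp f X (1 / 2 + t * Complex.I)‖ ^ 2 * gw τ H t : ℝ) : ℂ)‖ := by
    rw [Complex.norm_real, Real.norm_of_nonneg hnn]
  have hLam := Lam_ge_one
  rw [h1]
  rw [show ((∫ t : ℝ, ‖Dp f X (1 / 2 + t * Complex.I)‖ ^ 2 * gw τ H t : ℝ) : ℂ) = _ from hE]
  rw [sum_singleton]
  have hK : 0 ≤ 1 + 4 * X ^ 2 / H ^ 2 := by positivity
  have hbd : ∀ n ∈ Icc 1 ⌊X⌋₊, ∀ l ∈ Icc 1 ⌊X⌋₊,
      ‖((1:ℂ) * ((f n * (Real.sqrt n)⁻¹ : ℝ) : ℂ) * ((f l * (Real.sqrt l)⁻¹ : ℝ) : ℂ)) *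
        (ex (0 - Real.log n + Real.log l) τ * (gq H (0 - Real.log n + Real.log l) : ℝ))‖ ≤
      (1 / 2) * ((dv κ n ^ 2 / (n:ℝ)) * ((1 + 4 * X ^ 2 / H ^ 2) * lam ((l:ℤ) - n))) +
      (1 / 2) * ((dv κ l ^ 2 / (l:ℝ)) * ((1 + 4 * X ^ 2 / H ^ 2) * lam ((n:ℤ) - l))) := by
    intro n hn l hl
    rw [mem_Icc] at hn hl
    have hnX : (n:ℝ) ≤ X := (Nat.cast_le.mpr hn.2).trans (Nat.floor_le (by linarith))
    have hlX : (l:ℝ) ≤ X := (Nat.cast_le.mpr hl.2).trans (Nat.floor_le (by linarith))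
    have hn0 : (0:ℝ) < n := by exact_mod_cast hn.1
    have hl0 : (0:ℝ) < l := by exact_mod_cast hl.1
    rw [one_mul, norm_mul, norm_mul, norm_mul, ex_norm, one_mul, Complex.norm_real, Complex.norm_real,
      Complex.norm_real, Real.norm_of_nonneg (gq_nonneg _ _), Real.norm_eq_abs, Real.norm_eq_abs,
      abs_mul, abs_mul, abs_of_nonneg (inv_nonneg.mpr (Real.sqrt_nonneg (n:ℝ))),
      abs_of_nonneg (inv_nonneg.mpr (Real.sqrt_nonneg (l:ℝ)))]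
    have hg := gq_le_lam H hH X hn.1 hl.1 hnX hlX
    have hsym : lam ((n:ℤ) - l) = lam ((l:ℤ) - n) := by
      unfold lam
      by_cases h : (n:ℤ) - l = 0
      · rw [if_pos h, if_pos (by omega)]
      · rw [if_neg h, if_neg (by omega)]
        push_cast
        congr 1
        ring
    rw [hsym]
    obtain ⟨u, hu⟩ : ∃ u : ℝ, u = |f n| * (Real.sqrt n)⁻¹ := ⟨_, rfl⟩
    obtain ⟨v, hv⟩ : ∃ v : ℝ, v = |f l| * (Real.sqrt l)⁻¹ := ⟨_, rfl⟩
    have hu0 : 0 ≤ u := by rw [hu]; positivity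
    have hv0 : 0 ≤ v := by rw [hv]; positivity
    have hu2 : u ^ 2 ≤ dv κ n ^ 2 / n := by
      have s1 : ((Real.sqrt n)⁻¹) ^ 2 = (n:ℝ)⁻¹ := by rw [inv_pow, Real.sq_sqrt hn0.le]
      rw [hu, mul_pow, s1, div_eq_mul_inv]
      have := hf n hnX
      gcongr
    have hv2 : v ^ 2 ≤ dv κ l ^ 2 / l := by
      have s1 : ((Real.sqrt l)⁻¹) ^ 2 = (l:ℝ)⁻¹ := by rw [inv_pow, Real.sq_sqrt hl0.le]
      rw [hv, mul_pow, s1, div_eq_mul_inv]
      have := hf l hlX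
      gcongr
    have hamgm : u * v ≤ (1 / 2) * (dv κ n ^ 2 / n) + (1 / 2) * (dv κ l ^ 2 / l) := by
      nlinarith [sq_nonneg (u - v)]
    have hlam := lam_nonneg ((l:ℤ) - n)
    have hgn := gq_nonneg H (0 - Real.log n + Real.log l)
    rw [← hu, ← hv]
    calc u * v * gq H (0 - Real.log n + Real.log l) ≤
        ((1 / 2) * (dv κ n ^ 2 / n) + (1 / 2) * (dv κ l ^ 2 / l)) *
          ((1 + 4 * X ^ 2 / H ^ 2) * lam ((l:ℤ) - n)) := by
          have : 0 ≤ u * v := mul_nonneg hu0 hv0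
          gcongr
      _ = _ := by ring
  have hone : ∀ n ∈ Icc 1 ⌊X⌋₊, ∑ l ∈ Icc 1 ⌊X⌋₊, (dv κ n ^ 2 / (n:ℝ)) *
      ((1 + 4 * X ^ 2 / H ^ 2) * lam ((l:ℤ) - n)) ≤ (dv κ n ^ 2 / (n:ℝ)) * ((1 + 4 * X ^ 2 / H ^ 2) * Lam) := by
    intro n _
    rw [← mul_sum, ← mul_sum]
    have := sum_lam_shift (Icc 1 ⌊X⌋₊) n
    gcongr
  have htot : ∑ n ∈ Icc 1 ⌊X⌋₊, ∑ l ∈ Icc 1 ⌊X⌋₊, (dv κ n ^ 2 / (n:ℝ)) *
      ((1 + 4 * X ^ 2 / H ^ 2) * lam ((l:ℤ) - n)) ≤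
      (∑ n ∈ Icc 1 ⌊X⌋₊, dv κ n ^ 2 / (n:ℝ)) * ((1 + 4 * X ^ 2 / H ^ 2) * Lam) := by
    refine (sum_le_sum hone).trans ?_
    rw [← sum_mul]
  refine (norm_sum_le_of_le _ fun n hn => norm_sum_le_of_le _ fun l hl => hbd n hn l hl).trans ?_
  simp only [sum_add_distrib, ← mul_sum]
  have hsw : ∑ n ∈ Icc 1 ⌊X⌋₊, ∑ l ∈ Icc 1 ⌊X⌋₊, (dv κ l ^ 2 / (l:ℝ)) *
      ((1 + 4 * X ^ 2 / H ^ 2) * lam ((n:ℤ) - l)) =
      ∑ n ∈ Icc 1 ⌊X⌋₊, ∑ l ∈ Icc 1 ⌊X⌋₊, (dv κ n ^ 2 / (n:ℝ)) *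
      ((1 + 4 * X ^ 2 / H ^ 2) * lam ((l:ℤ) - n)) := sum_comm
  simp only [← mul_sum] at hsw htot
  rw [hsw]
  linarith

end

end Pool.Agent.W5h76.KS
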