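import Pool.Agent.TH75.AFE2
import Pool.Agent.R311.SE.F
import Pool.Agent.W5h76.KS.A

set_option autoImplicit false

/-! The approximate functional equation in a window as a pointwise bound, and the twisted second
moment of zeta in windows of length `T ^ (1 / 2 + ε)`. -/

namespace Pool.Agent.W5h76.KS

open Finset MeasureTheory Filter Topology
open Pool.Agent.H306R2
open Pool.Agent.R311.BS (ex ex_norm ncpow_line Lam Lam_ge_one xA xA_apply xA_mul xA_le cA cA_supp cA_nonneg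
  cA_le cA_pow_le mul_mono_le dv_one_left U_upper ev_pow ev_rpow_ge)
open Pool.Agent.R311.SE (zl zl_cont Dp_cont mem_real)
open Pool.Agent.H448R2.GC (cu cs XX)

noncomputable section

/-- the smooth cutoff as an arithmetic function -/
def fc (k : ℕ) (c D : ℝ) : ArithmeticFunction ℝ :=
  ⟨fun m => if m = 0 then 0 else cu k c (Real.log m - D), by simp⟩

lemma fc_apply (k : ℕ) (c D : ℝ) {m : ℕ} (hm : m ≠ 0) : fc k c D m = cu k c (Real.log m - D) := by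
  show (if m = 0 then 0 else cu k c (Real.log m - D)) = _
  rw [if_neg hm]

lemma fc_bd (k : ℕ) {c : ℝ} (hc : 0 < c) (D : ℝ) (m : ℕ) : 0 ≤ fc k c D m ∧ fc k c D m ≤ xA 1 1 m := by
  rcases Nat.eq_zero_or_pos m with h | h
  · subst h; simp
  · rw [fc_apply k c D (by omega), xA_apply, if_pos (Nat.coprime_one_right m), dv_one_left (by omega)]
    exact ⟨Pool.Agent.H448R2.GC.cu_nonneg k c _ hc, Pool.Agent.H448R2.GC.cu_le_one k c _ hc⟩

lemma fc_supp (k : ℕ) {c : ℝ} (hc : 0 < c) (D : ℝ) (m : ℕ) (hm : Real.exp (D + k * c) < m) :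
    fc k c D m = 0 := by
  have hm0 : (0:ℝ) < m := (Real.exp_pos _).trans hm
  have hm1 : m ≠ 0 := by rintro rfl; simp at hm0
  rw [fc_apply k c D hm1]
  refine Pool.Agent.H448R2.GC.cu_zero k c _ hc ?_
  have := (Real.lt_log_iff_exp_lt hm0).2 hm
  linarith

lemma cs_conj (k : ℕ) (c D : ℝ) (s : ℂ) :
    cs k c D ((starRingEnd ℂ) s) = (starRingEnd ℂ) (cs k c D s) := by
  unfold cs
  rw [map_sum]
  refine Finset.sum_congr rfl ?_
  intro m hm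
  rw [map_mul, Complex.conj_ofReal]
  congr 1
  have h := Complex.cpow_conj (m : ℂ) (-s) (by rw [Complex.natCast_arg]; exact Real.pi_pos.ne)
  rw [Complex.conj_natCast] at h
  rw [← map_neg, h]

lemma cs_eq (k : ℕ) (c D t : ℝ) : cs k c D (1 / 2 + t * Complex.I) =
    Dp (fc k c D) (Real.exp (D + k * c)) (1 / 2 + t * Complex.I) := by
  unfold cs Dp
  refine sum_congr rfl fun m hm => ?_
  rw [mem_Icc] at hm
  rw [fc_apply k c D (by omega)]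

lemma cu_lip (k : ℕ) {c : ℝ} (hc : 0 < c) (r r' : ℝ) :
    |cu (k + 2) c r - cu (k + 2) c r'| ≤ 1 / c * |r - r'| := by
  have h := Convex.norm_image_sub_le_of_norm_hasDerivWithin_le (f := cu (k + 2) c) (s := Set.univ)
    (C := 1 / c) (f' := fun r => (cu (k + 1) c r - cu (k + 1) c (r - c)) / c) (x := r') (y := r)
    (fun x _ => (Pool.Agent.H448R2.GC.cu_deriv k c x hc).hasDerivWithinAt) (fun x _ => ?_) convex_univ
    (Set.mem_univ _) (Set.mem_univ _)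
  · simpa [Real.norm_eq_abs] using h
  · have a1 := Pool.Agent.H448R2.GC.cu_nonneg (k + 1) c x hc
    have a2 := Pool.Agent.H448R2.GC.cu_le_one (k + 1) c x hc
    have a3 := Pool.Agent.H448R2.GC.cu_nonneg (k + 1) c (x - c) hc
    have a4 := Pool.Agent.H448R2.GC.cu_le_one (k + 1) c (x - c) hc
    rw [Real.norm_eq_abs, abs_div, abs_of_pos hc]
    apply div_le_div_of_nonneg_right _ hc.le
    rw [abs_le]
    constructor <;> linarith

lemma cs_lip (k : ℕ) {c : ℝ} (hc : 0 < c) (D₁ D₂ E t : ℝ) (h1 : D₁ ≤ E) (h2 : D₂ ≤ E) :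
    ‖cs (k + 2) c D₁ (1 / 2 + t * Complex.I) - cs (k + 2) c D₂ (1 / 2 + t * Complex.I)‖ ≤
      1 / c * |D₁ - D₂| * (2 * Real.sqrt (Real.exp (E + (k + 2 : ℕ) * c))) := by
  obtain ⟨M, hM⟩ : ∃ M : ℕ, M = ⌊Real.exp (E + (k + 2 : ℕ) * c)⌋₊ := ⟨_, rfl⟩
  have hext : ∀ D : ℝ, D ≤ E → cs (k + 2) c D (1 / 2 + t * Complex.I) =
      ∑ m ∈ Icc 1 M, (cu (k + 2) c (Real.log m - D) : ℂ) * (m : ℂ) ^ (-(1 / 2 + t * Complex.I)) := by
    intro D hD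
    unfold cs
    rw [hM]
    refine sum_subset (Icc_subset_Icc_right (Nat.floor_le_floor (Real.exp_le_exp.mpr (by linarith)))) ?_
    intro m hm hm'
    rw [mem_Icc] at hm hm'
    have h3 : Real.exp (D + (k + 2 : ℕ) * c) < m := by
      by_contra h
      rw [not_lt] at h
      exact hm' ⟨hm.1, Nat.le_floor h⟩
    have hm0 : (0:ℝ) < m := by exact_mod_cast hm.1
    have h4 := (Real.lt_log_iff_exp_lt hm0).2 h3
    rw [Pool.Agent.H448R2.GC.cu_zero (k + 2) c _ hc (by linarith)]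
    simp
  rw [hext D₁ h1, hext D₂ h2, ← sum_sub_distrib]
  have hterm : ∀ m ∈ Icc 1 M, ‖(cu (k + 2) c (Real.log m - D₁) : ℂ) * (m : ℂ) ^ (-(1 / 2 + t * Complex.I)) -
      (cu (k + 2) c (Real.log m - D₂) : ℂ) * (m : ℂ) ^ (-(1 / 2 + t * Complex.I))‖ ≤
      1 / c * |D₁ - D₂| * (Real.sqrt m)⁻¹ := by
    intro m hm
    rw [mem_Icc] at hm
    rw [← sub_mul, norm_mul, ncpow_line m hm.1, norm_mul, ex_norm, mul_one, Complex.norm_real,
      Real.norm_of_nonneg (by positivity : (0:ℝ) ≤ (Real.sqrt m)⁻¹), ← Complex.ofReal_sub,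
      Complex.norm_real, Real.norm_eq_abs]
    have h3 := cu_lip k hc (Real.log m - D₁) (Real.log m - D₂)
    have e : |Real.log m - D₁ - (Real.log m - D₂)| = |D₁ - D₂| := by
      rw [show Real.log m - D₁ - (Real.log m - D₂) = -(D₁ - D₂) by ring, abs_neg]
    rw [e] at h3
    gcongr
  refine (norm_sum_le_of_le _ hterm).trans ?_
  rw [← mul_sum]
  have h5 := Pool.Agent.R311.SE.sum_inv_sqrt M
  have h6 : Real.sqrt (M : ℝ) ≤ Real.sqrt (Real.exp (E + (k + 2 : ℕ) * c)) := by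
    rw [hM]
    exact Real.sqrt_le_sqrt (Nat.floor_le (Real.exp_pos _).le)
  have h7 : 0 ≤ 1 / c * |D₁ - D₂| := by positivity
  calc _ ≤ 1 / c * |D₁ - D₂| * (2 * Real.sqrt M) := by gcongr
    _ ≤ _ := by gcongr

/-- zeta in a window is bounded by two smooth sums of length about `√T` -/
theorem afe_pt (η : ℝ) (hη : 0 < η) (hη1 : η ≤ 1 / 100) : ∃ k : ℕ, 1 ≤ k ∧ ∀ᶠ T : ℝ in atTop,
    ∀ τ t : ℝ, T ≤ τ → τ ≤ 3 * T → |t - τ| ≤ T ^ (1 / 2 + 3 * η) →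
      ‖zl t‖ ≤ ‖cs k (η * Real.log T / k) ((1 / 2 - η) * Real.log T) (1 / 2 + t * Complex.I)‖ +
        ‖cs k (η * Real.log T / k) (Real.log (τ / (2 * Real.pi)) - 1 / 2 * Real.log T)
          (1 / 2 + t * Complex.I)‖ + 2 := by
  obtain ⟨k₀, hk₀⟩ := Pool.Agent.TH75.AFE1.main η hη hη1
  obtain ⟨T₀, hT₀⟩ := hk₀ (k₀ + 2) (by omega)
  refine ⟨k₀ + 2, by omega, ?_⟩
  filter_upwards [eventually_ge_atTop T₀, eventually_ge_atTop 100,
    ev_pow 4 (1 / 2 - 3 * η) (by linarith), ev_pow (4 * (((k₀ + 2 : ℕ) : ℝ) / η)) (1 / 4 - 7 / 2 * η) (by linarith),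
    Real.tendsto_log_atTop.eventually_ge_atTop 1] with T hTT hT100 g1 g2 hL1 τ t hτ1 hτ2 ht
  have hT0 : 0 < T := by linarith
  have hT1 : 1 ≤ T := by linarith
  have hL0 : 0 < Real.log T := by linarith
  obtain ⟨R, hR⟩ : ∃ R : ℝ, R = T ^ (1 / 2 + 3 * η) := ⟨_, rfl⟩
  rw [← hR] at ht
  have hR0 : 0 < R := by rw [hR]; positivity
  have hRT : 4 * R ≤ T := by
    have e1 : R = T ^ (-(1 / 2 - 3 * η)) * T := by
      rw [hR]
      conv_rhs => rw [← Real.rpow_one T, ← Real.rpow_mul hT0.le, ← Real.rpow_add hT0]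
      congr 1; ring
    rw [e1, ← mul_assoc]
    calc _ ≤ 1 * T := by gcongr
      _ = T := one_mul T
  have hτ0 : 0 < τ := by linarith
  have ht' := abs_le.mp ht
  have ht0 : 0 < t := by linarith
  have hpi := Real.pi_gt_three
  have hpi0 := Real.pi_pos
  obtain ⟨c, hc⟩ : ∃ c : ℝ, c = η * Real.log T / ((k₀ + 2 : ℕ) : ℝ) := ⟨_, rfl⟩
  have hk2 : (0:ℝ) < ((k₀ + 2 : ℕ) : ℝ) := by positivity
  have hc0 : 0 < c := by rw [hc]; positivity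
  have hkc : ((k₀ + 2 : ℕ) : ℝ) * c = η * Real.log T := by rw [hc]; field_simp
  have h1 := hT₀ T hTT t (by linarith) ((1 / 2 - η) * Real.log T) (by nlinarith) (by nlinarith)
    (1 / 2 + t * Complex.I) (by push_cast; ring)
  rw [← hc] at h1 ⊢
  have e2 : Real.log (t / (2 * Real.pi)) - (1 / 2 - η) * Real.log T - η * Real.log T =
      Real.log (t / (2 * Real.pi)) - 1 / 2 * Real.log T := by ring
  rw [e2] at h1
  obtain ⟨D₁, hD₁⟩ : ∃ D : ℝ, D = Real.log (t / (2 * Real.pi)) - 1 / 2 * Real.log T := ⟨_, rfl⟩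
  obtain ⟨D₂, hD₂⟩ : ∃ D : ℝ, D = Real.log (τ / (2 * Real.pi)) - 1 / 2 * Real.log T := ⟨_, rfl⟩
  rw [← hD₁] at h1
  rw [← hD₂]
  have e3 : (1 : ℂ) - (1 / 2 + t * Complex.I) = (starRingEnd ℂ) (1 / 2 + t * Complex.I) := by
    simp only [map_add, map_div₀, map_one, map_mul, Complex.conj_ofReal, Complex.conj_I]
    rw [show (starRingEnd ℂ) 2 = 2 from Complex.conj_ofNat 2]
    ring
  have hXX : ‖XX (1 - (1 / 2 + t * Complex.I))‖ = 1 := by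
    rw [e3, Pool.Agent.H448R2.GC.X1.norm_XX_conj, Pool.Agent.H448R2.GC.X1.XX_eq]
    exact _root_.H345.norm_XX_half t
  have hcsn : ‖cs (k₀ + 2) c D₁ (1 - (1 / 2 + t * Complex.I))‖ = ‖cs (k₀ + 2) c D₁ (1 / 2 + t * Complex.I)‖ := by
    rw [e3, cs_conj, RCLike.norm_conj]
  have hlogE : ∀ x : ℝ, 0 < x → x ≤ 2 * Real.pi * T → Real.log (x / (2 * Real.pi)) - 1 / 2 * Real.log T ≤
      1 / 2 * Real.log T := by
    intro x hx hxT
    have h2 : Real.log (x / (2 * Real.pi)) ≤ Real.log T := by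
      apply Real.log_le_log (by positivity)
      rw [div_le_iff₀ (by positivity)]
      linarith
    linarith
  have hE1 : D₁ ≤ 1 / 2 * Real.log T := by rw [hD₁]; exact hlogE t ht0 (by nlinarith)
  have hE2 : D₂ ≤ 1 / 2 * Real.log T := by rw [hD₂]; exact hlogE τ hτ0 (by nlinarith)
  have h3 := cs_lip k₀ hc0 D₁ D₂ (1 / 2 * Real.log T) t hE1 hE2
  have h4 : |D₁ - D₂| ≤ 2 * R / τ := by
    have e4 : D₁ - D₂ = Real.log (t / (2 * Real.pi)) - Real.log (τ / (2 * Real.pi)) := by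
      rw [hD₁, hD₂]; ring
    rw [e4]
    exact Pool.Agent.R311.SE.log_diff hτ0 (by linarith) ht
  have h5 : 2 * R / τ ≤ 2 * T ^ (-(1 / 2 - 3 * η)) := by
    have e5 : 2 * T ^ (-(1 / 2 - 3 * η)) = 2 * R / T := by
      have e1 : R = T ^ (-(1 / 2 - 3 * η)) * T := by
        rw [hR]
        conv_rhs => rw [← Real.rpow_one T, ← Real.rpow_mul hT0.le, ← Real.rpow_add hT0]
        congr 1; ring
      rw [e1]; field_simp
    rw [e5]
    gcongr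
  have h6 : Real.sqrt (Real.exp (1 / 2 * Real.log T + ((k₀ + 2 : ℕ) : ℝ) * c)) = T ^ (1 / 4 + η / 2) := by
    rw [hkc, Real.sqrt_eq_rpow, ← Real.exp_mul, Real.rpow_def_of_pos hT0]
    congr 1; ring
  rw [h6] at h3
  have h7 : 1 / c * |D₁ - D₂| * (2 * T ^ (1 / 4 + η / 2)) ≤ 1 := by
    have h8 : 1 / c ≤ ((k₀ + 2 : ℕ) : ℝ) / η := by
      rw [hc, one_div_div]
      apply div_le_div_of_nonneg_left hk2.le hη
      nlinarith
    calc 1 / c * |D₁ - D₂| * (2 * T ^ (1 / 4 + η / 2)) ≤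
        ((k₀ + 2 : ℕ) : ℝ) / η * (2 * T ^ (-(1 / 2 - 3 * η))) * (2 * T ^ (1 / 4 + η / 2)) := by
          gcongr
          exact h4.trans h5
      _ = 4 * (((k₀ + 2 : ℕ) : ℝ) / η) * (T ^ (-(1 / 2 - 3 * η)) * T ^ (1 / 4 + η / 2)) := by ring
      _ = 4 * (((k₀ + 2 : ℕ) : ℝ) / η) * T ^ (-(1 / 4 - 7 / 2 * η)) := by
          rw [← Real.rpow_add hT0]
          congr 2; ring
      _ ≤ 1 := g2
  have h9 : T ^ (-(1 / 5) : ℝ) ≤ 1 := Real.rpow_le_one_of_one_le_of_nonpos hT1 (by norm_num)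
  obtain ⟨z, hz⟩ : ∃ z : ℂ, z = cs (k₀ + 2) c ((1 / 2 - η) * Real.log T) (1 / 2 + t * Complex.I) := ⟨_, rfl⟩
  obtain ⟨w, hw⟩ : ∃ w : ℂ, w = XX (1 - (1 / 2 + t * Complex.I)) * cs (k₀ + 2) c D₁ (1 - (1 / 2 + t * Complex.I)) :=
    ⟨_, rfl⟩
  rw [← hz, ← hw] at h1
  rw [← hz]
  have hwn : ‖w‖ ≤ ‖cs (k₀ + 2) c D₂ (1 / 2 + t * Complex.I)‖ + 1 := by
    rw [hw, norm_mul, hXX, one_mul, hcsn]
    have := norm_sub_norm_le (cs (k₀ + 2) c D₁ (1 / 2 + t * Complex.I)) (cs (k₀ + 2) c D₂ (1 / 2 + t * Complex.I))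
    linarith
  have hzl : zl t = (riemannZeta (1 / 2 + t * Complex.I) - z - w) + z + w := by
    unfold Pool.Agent.R311.SE.zl; ring
  rw [hzl]
  refine (norm_add_le _ _).trans ?_
  have h10 := norm_add_le (riemannZeta (1 / 2 + t * Complex.I) - z - w) z
  linarith

/-- one product -/
lemma prod_sq {α : ℝ} (hα0 : 0 ≤ α) (a k : ℕ) {c : ℝ} (hc : 0 < c) (D N τ H T : ℝ) (hN : 1 ≤ N)
    (hH : 0 < H) (hX1 : 1 ≤ Real.exp (D + k * c)) (hXH : Real.exp (D + k * c) * N ^ a ≤ H) (hHT : H ≤ T) :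
    Integrable (fun t : ℝ => ‖cs k c D (1 / 2 + t * Complex.I)‖ ^ 2 * ‖CL α N t‖ ^ (2 * a) * gw τ H t) ∧
    ∫ t : ℝ, ‖cs k c D (1 / 2 + t * Complex.I)‖ ^ 2 * ‖CL α N t‖ ^ (2 * a) * gw τ H t ≤
      5 * Lam * ∑ n ∈ Icc 1 ⌊T⌋₊, dv (a * α + 1) n ^ 2 / n := by
  obtain ⟨X, hX⟩ : ∃ X : ℝ, X = Real.exp (D + k * c) := ⟨_, rfl⟩
  have hLam := Lam_ge_one
  have hN1 : 1 ≤ N ^ a := one_le_pow₀ hN
  have hP := Dp_pow (cA 1 N α) N hN (cA_supp 1 N α)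
  have hsupp := fc_supp k hc D
  rw [← hX] at hsupp hX1 hXH
  have e1 : ∀ t : ℝ, ‖cs k c D (1 / 2 + t * Complex.I)‖ ^ 2 * ‖CL α N t‖ ^ (2 * a) * gw τ H t =
      ‖Dp (fc k c D * Cq α N a : ArithmeticFunction ℝ) (X * N ^ a) (1 / 2 + t * Complex.I)‖ ^ 2 * gw τ H t := by
    intro t
    have h1 := Dp_mul (fc k c D) (Cq α N a) X (N ^ a) (by linarith) (by linarith) hsupp
      (hP (1 / 2 + t * Complex.I) a).1 (1 / 2 + t * Complex.I)
    rw [h1.2, Cq_Dp α N hN, cs_eq, ← hX, norm_mul, norm_pow, mul_pow, ← pow_mul, mul_comm a 2]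
  simp only [e1]
  have hX' : 1 ≤ X * N ^ a := one_le_mul_of_one_le_of_one_le hX1 hN1
  have hbd : ∀ n : ℕ, (n:ℝ) ≤ X * N ^ a → |(fc k c D * Cq α N a : ArithmeticFunction ℝ) n| ≤
      dv (a * α + 1) n := by
    intro n _
    have h1 := mul_mono_le (n:ℝ) (f := fc k c D) (f' := xA 1 1) (g := Cq α N a) (g' := xA 1 ((a : ℝ) * α))
      (fun m _ => fc_bd k hc D m) (fun m _ => cA_pow_le 1 N hα0 a m) n le_rfl
    rw [xA_mul] at h1
    rw [abs_of_nonneg h1.1]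
    refine h1.2.trans ((xA_le 1 (by positivity) n).trans (le_of_eq ?_))
    rw [add_comm]
  obtain ⟨h2, h3⟩ := sqm (a * α + 1) (fc k c D * Cq α N a : ArithmeticFunction ℝ) (X * N ^ a) τ H hX' hH hbd
  refine ⟨h2, h3.trans ?_⟩
  have h4 : 1 + 4 * (X * N ^ a) ^ 2 / H ^ 2 ≤ 5 := by
    have h5 : (X * N ^ a) ^ 2 ≤ H ^ 2 := pow_le_pow_left₀ (by linarith) hXH 2
    have h6 : 4 * (X * N ^ a) ^ 2 / H ^ 2 ≤ 4 := by
      rw [div_le_iff₀ (by positivity)]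
      linarith
    linarith
  have h5 : ∑ n ∈ Icc 1 ⌊X * N ^ a⌋₊, dv (a * α + 1) n ^ 2 / (n:ℝ) ≤
      ∑ n ∈ Icc 1 ⌊T⌋₊, dv (a * α + 1) n ^ 2 / (n:ℝ) := by
    refine sum_le_sum_of_subset_of_nonneg (Icc_subset_Icc_right (Nat.floor_le_floor (hXH.trans hHT)))
      fun n _ _ => by positivity
  have h6 : 0 ≤ ∑ n ∈ Icc 1 ⌊X * N ^ a⌋₊, dv (a * α + 1) n ^ 2 / (n:ℝ) := sum_nonneg fun n _ => by positivity
  calc _ ≤ (∑ n ∈ Icc 1 ⌊T⌋₊, dv (a * α + 1) n ^ 2 / (n:ℝ)) * (5 * Lam) := by gcongr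
    _ = _ := by ring

/-- moments of the short polynomial -/
lemma pow_sq {α : ℝ} (hα0 : 0 ≤ α) (a : ℕ) (N τ H T : ℝ) (hN : 1 ≤ N) (hH : 0 < H) (hXH : N ^ a ≤ H)
    (hHT : H ≤ T) :
    Integrable (fun t : ℝ => ‖CL α N t‖ ^ (2 * a) * gw τ H t) ∧
    ∫ t : ℝ, ‖CL α N t‖ ^ (2 * a) * gw τ H t ≤ 5 * Lam * ∑ n ∈ Icc 1 ⌊T⌋₊, dv (a * α) n ^ 2 / n := by
  have hLam := Lam_ge_one
  have hN1 : 1 ≤ N ^ a := one_le_pow₀ hN
  have e1 : ∀ t : ℝ, ‖CL α N t‖ ^ (2 * a) * gw τ H t =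
      ‖Dp (Cq α N a) (N ^ a) (1 / 2 + t * Complex.I)‖ ^ 2 * gw τ H t := by
    intro t
    rw [Cq_Dp α N hN, norm_pow, ← pow_mul, mul_comm a 2]
  simp only [e1]
  obtain ⟨h2, h3⟩ := sqm (a * α) (Cq α N a) (N ^ a) τ H hN1 hH (fun n _ => by
    have := Cq_bd hα0 N a n
    rw [abs_of_nonneg this.1]
    exact this.2)
  refine ⟨h2, h3.trans ?_⟩
  have h4 : 1 + 4 * (N ^ a) ^ 2 / H ^ 2 ≤ 5 := by
    have h5 : (N ^ a) ^ 2 ≤ H ^ 2 := pow_le_pow_left₀ (by linarith) hXH 2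
    have h6 : 4 * (N ^ a) ^ 2 / H ^ 2 ≤ 4 := by
      rw [div_le_iff₀ (by positivity)]
      linarith
    linarith
  have h5 : ∑ n ∈ Icc 1 ⌊N ^ a⌋₊, dv (a * α) n ^ 2 / (n:ℝ) ≤ ∑ n ∈ Icc 1 ⌊T⌋₊, dv (a * α) n ^ 2 / (n:ℝ) := by
    refine sum_le_sum_of_subset_of_nonneg (Icc_subset_Icc_right (Nat.floor_le_floor (hXH.trans hHT)))
      fun n _ _ => by positivity
  have h6 : 0 ≤ ∑ n ∈ Icc 1 ⌊N ^ a⌋₊, dv (a * α) n ^ 2 / (n:ℝ) := sum_nonneg fun n _ => by positivity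
  calc _ ≤ (∑ n ∈ Icc 1 ⌊T⌋₊, dv (a * α) n ^ 2 / (n:ℝ)) * (5 * Lam) := by gcongr
    _ = _ := by ring

/-- the diagonal sums -/
lemma U_log {κ : ℝ} (hκ : 0 < κ) : ∃ C : ℝ, 0 < C ∧ ∀ᶠ T : ℝ in atTop,
    ∑ n ∈ Icc 1 ⌊T⌋₊, dv κ n ^ 2 / (n:ℝ) ≤ C * Real.log T ^ (κ ^ 2) := by
  obtain ⟨C, hC, h⟩ := U_upper hκ
  refine ⟨C, hC, ?_⟩
  filter_upwards [Real.tendsto_log_atTop.eventually h, eventually_gt_atTop 0] with T hT hT0
  rw [Real.exp_log hT0] at hT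
  exact hT

/-- the twisted second moment in a window -/
theorem tw {α : ℝ} (hα0 : 0 ≤ α) (a : ℕ) (η ν : ℝ) (hη : 0 < η) (hη1 : η ≤ 1 / 100)
    (hν : 0 < ν) (hνa : ν * a ≤ η) : ∃ C : ℝ, 0 < C ∧ ∀ᶠ T : ℝ in atTop, ∀ τ : ℝ, T ≤ τ → τ ≤ 3 * T →
      ∫ t in Set.Ioc (τ - T ^ (1 / 2 + 3 * η)) (τ + T ^ (1 / 2 + 3 * η)),
        ‖zl t‖ ^ 2 * ‖CL α (T ^ ν) t‖ ^ (2 * a) * gw τ (T ^ (1 / 2 + 2 * η)) t ≤
        C * Real.log T ^ ((a * α + 1) ^ 2) := by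
  obtain ⟨k, hk1, hk⟩ := afe_pt η hη hη1
  have hκ : 0 < a * α + 1 := by positivity
  obtain ⟨C, hC, hU⟩ := U_log hκ
  have hLam := Lam_ge_one
  refine ⟨90 * Lam * C, by positivity, ?_⟩
  filter_upwards [hk, hU, eventually_ge_atTop 100, Real.tendsto_log_atTop.eventually_ge_atTop 1]
    with T hT hUT hT100 hL1 τ hτ1 hτ2
  have hT0 : 0 < T := by linarith
  have hT1 : 1 ≤ T := by linarith
  have hL0 : 0 < Real.log T := by linarith
  have hτ0 : 0 < τ := by linarith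
  have hk0 : (0:ℝ) < k := by exact_mod_cast hk1
  obtain ⟨c, hc⟩ : ∃ c : ℝ, c = η * Real.log T / (k:ℝ) := ⟨_, rfl⟩
  have hc0 : 0 < c := by rw [hc]; positivity
  have hkc : (k:ℝ) * c = η * Real.log T := by rw [hc]; field_simp
  obtain ⟨N, hN⟩ : ∃ N : ℝ, N = T ^ ν := ⟨_, rfl⟩
  have hN1 : 1 ≤ N := by rw [hN]; exact Real.one_le_rpow hT1 hν.le
  have hNa : N ^ a ≤ T ^ η := by
    rw [hN, ← Real.rpow_natCast, ← Real.rpow_mul hT0.le]
    exact Real.rpow_le_rpow_of_exponent_le hT1 hνa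
  obtain ⟨H, hH⟩ : ∃ H : ℝ, H = T ^ (1 / 2 + 2 * η) := ⟨_, rfl⟩
  have hH0 : 0 < H := by rw [hH]; positivity
  have hHT : H ≤ T := by
    rw [hH]
    calc T ^ (1 / 2 + 2 * η) ≤ T ^ (1:ℝ) := Real.rpow_le_rpow_of_exponent_le hT1 (by linarith)
      _ = T := Real.rpow_one T
  obtain ⟨D₁, hD₁⟩ : ∃ D : ℝ, D = (1 / 2 - η) * Real.log T := ⟨_, rfl⟩
  obtain ⟨D₂, hD₂⟩ : ∃ D : ℝ, D = Real.log (τ / (2 * Real.pi)) - 1 / 2 * Real.log T := ⟨_, rfl⟩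
  rw [← hH, ← hN]
  have hpi0 := Real.pi_pos
  have hpi := Real.pi_gt_three
  have hpi4 := Real.pi_lt_d2
  have hX1 : Real.exp (D₁ + k * c) = T ^ (1 / 2 : ℝ) := by
    rw [hkc, hD₁, Real.rpow_def_of_pos hT0]
    congr 1; ring
  have hX2 : Real.exp (D₂ + k * c) = τ / (2 * Real.pi) * T ^ (-(1 / 2) + η) := by
    rw [hkc, hD₂, Real.rpow_def_of_pos hT0]
    have : Real.log (τ / (2 * Real.pi)) - 1 / 2 * Real.log T + η * Real.log T =
      Real.log (τ / (2 * Real.pi)) + Real.log T * (-(1 / 2) + η) := by ring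
    rw [this, Real.exp_add, Real.exp_log (by positivity)]
  have hTh : T ^ (1 / 2 + η) = T * T ^ (-(1 / 2) + η) := by
    conv_rhs => rw [← Real.rpow_one T, ← Real.rpow_mul hT0.le, ← Real.rpow_add hT0]
    congr 1; ring
  have hX2' : Real.exp (D₂ + k * c) ≤ T ^ (1 / 2 + η) := by
    rw [hX2, hTh]
    have : τ / (2 * Real.pi) ≤ T := by
      rw [div_le_iff₀ (by positivity)]
      nlinarith
    gcongr
  have hHsplit : H = T ^ (1 / 2 + η) * T ^ η := by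
    rw [hH, ← Real.rpow_add hT0]; congr 1; ring
  have hT12 : T ^ (1 / 2 : ℝ) ≤ T ^ (1 / 2 + η) := Real.rpow_le_rpow_of_exponent_le hT1 (by linarith)
  have hb1 : Real.exp (D₁ + k * c) * N ^ a ≤ H := by
    rw [hX1, hHsplit]
    have : 0 ≤ N ^ a := by positivity
    gcongr
  have hb2 : Real.exp (D₂ + k * c) * N ^ a ≤ H := by
    rw [hHsplit]
    have : 0 ≤ N ^ a := by positivity
    gcongr
  have hc1 : 1 ≤ Real.exp (D₁ + k * c) := by rw [hX1]; exact Real.one_le_rpow hT1 (by norm_num)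
  have hc2 : 1 ≤ Real.exp (D₂ + k * c) := by
    rw [hX2]
    have h1 : T / 7 ≤ τ / (2 * Real.pi) := by
      rw [div_le_div_iff₀ (by norm_num) (by positivity)]
      nlinarith
    have h2 : T ^ (1 / 2 : ℝ) ≤ T * T ^ (-(1 / 2) + η) := by
      rw [← hTh]; exact hT12
    have h3 : (7:ℝ) ≤ T ^ (1 / 2 : ℝ) := by
      rw [← Real.sqrt_eq_rpow]
      apply Real.le_sqrt_of_sq_le
      linarith
    have h4 : 0 ≤ T ^ (-(1 / 2) + η) := by positivity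
    calc (1:ℝ) ≤ (T * T ^ (-(1 / 2) + η)) / 7 := by
          rw [le_div_iff₀ (by norm_num)]; linarith
      _ = T / 7 * T ^ (-(1 / 2) + η) := by ring
      _ ≤ _ := by gcongr
  obtain ⟨i1, j1⟩ := prod_sq hα0 a k hc0 D₁ N τ H T hN1 hH0 hc1 hb1 hHT
  obtain ⟨i2, j2⟩ := prod_sq hα0 a k hc0 D₂ N τ H T hN1 hH0 hc2 hb2 hHT
  obtain ⟨i3, j3⟩ := pow_sq hα0 a N τ H T hN1 hH0 (by
    have : N ^ a ≤ Real.exp (D₁ + k * c) * N ^ a := le_mul_of_one_le_left (by positivity) hc1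
    linarith) hHT
  obtain ⟨U, hUd⟩ : ∃ U : ℝ, U = ∑ n ∈ Icc 1 ⌊T⌋₊, dv (a * α + 1) n ^ 2 / (n:ℝ) := ⟨_, rfl⟩
  rw [← hUd] at j1 j2 hUT
  have hU0 : 0 ≤ U := by rw [hUd]; exact sum_nonneg fun n _ => by positivity
  have j3' : ∫ t : ℝ, ‖CL α N t‖ ^ (2 * a) * gw τ H t ≤ 5 * Lam * U := by
    refine j3.trans ?_
    rw [hUd]
    have : ∑ n ∈ Icc 1 ⌊T⌋₊, dv (a * α) n ^ 2 / (n:ℝ) ≤ ∑ n ∈ Icc 1 ⌊T⌋₊, dv (a * α + 1) n ^ 2 / (n:ℝ) := by
      refine sum_le_sum fun n _ => ?_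
      have h1 := dv_mono (α := a * α) (β := a * α + 1) (by positivity) (by linarith) n
      have h2 := dv_nonneg (show (0:ℝ) ≤ a * α by positivity) n
      gcongr
    gcongr
  obtain ⟨I, hI⟩ : ∃ I : Set ℝ, I = Set.Ioc (τ - T ^ (1 / 2 + 3 * η)) (τ + T ^ (1 / 2 + 3 * η)) := ⟨_, rfl⟩
  have hIm : MeasurableSet I := by rw [hI]; exact measurableSet_Ioc
  rw [← hI]
  obtain ⟨P₁, hP₁⟩ : ∃ P : ℝ → ℝ, P = fun t : ℝ => ‖cs k c D₁ (1 / 2 + t * Complex.I)‖ ^ 2 * ‖CL α N t‖ ^ (2 * a) *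
    gw τ H t := ⟨_, rfl⟩
  obtain ⟨P₂, hP₂⟩ : ∃ P : ℝ → ℝ, P = fun t : ℝ => ‖cs k c D₂ (1 / 2 + t * Complex.I)‖ ^ 2 * ‖CL α N t‖ ^ (2 * a) *
    gw τ H t := ⟨_, rfl⟩
  obtain ⟨P₃, hP₃⟩ : ∃ P : ℝ → ℝ, P = fun t : ℝ => ‖CL α N t‖ ^ (2 * a) * gw τ H t := ⟨_, rfl⟩
  rw [← hP₁] at i1 j1
  rw [← hP₂] at i2 j2
  rw [← hP₃] at i3 j3'
  have hint : Integrable (fun t => 3 * P₁ t + 3 * P₂ t + 12 * P₃ t) :=
    ((i1.const_mul 3).add (i2.const_mul 3)).add (i3.const_mul 12)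
  have hnn : ∀ t, 0 ≤ 3 * P₁ t + 3 * P₂ t + 12 * P₃ t := by
    intro t
    have := gw_nonneg τ H t hH0
    rw [hP₁, hP₂, hP₃]
    positivity
  have hcont : Continuous fun t : ℝ => ‖zl t‖ ^ 2 * ‖CL α N t‖ ^ (2 * a) * gw τ H t := by
    have c1 := CL_cont α N
    have c2 := zl_cont
    have c3 := gw_continuous τ H
    fun_prop
  calc ∫ t in I, ‖zl t‖ ^ 2 * ‖CL α N t‖ ^ (2 * a) * gw τ H t ≤
      ∫ t in I, (3 * P₁ t + 3 * P₂ t + 12 * P₃ t) := by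
        refine setIntegral_mono_on ?_ hint.integrableOn hIm fun t ht => ?_
        · rw [hI]; exact hcont.integrableOn_Icc.mono_set Set.Ioc_subset_Icc_self
        · rw [hI] at ht
          have h1 := hT τ t hτ1 hτ2 (by rw [abs_le]; constructor <;> linarith [ht.1, ht.2])
          rw [← hc, ← hD₁, ← hD₂] at h1
          have h2 : ‖zl t‖ ^ 2 ≤ 3 * ‖cs k c D₁ (1 / 2 + t * Complex.I)‖ ^ 2 +
              3 * ‖cs k c D₂ (1 / 2 + t * Complex.I)‖ ^ 2 + 12 := by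
            have h3 := pow_le_pow_left₀ (norm_nonneg _) h1 2
            nlinarith [sq_nonneg (‖cs k c D₁ (1 / 2 + t * Complex.I)‖ - ‖cs k c D₂ (1 / 2 + t * Complex.I)‖),
              sq_nonneg (‖cs k c D₁ (1 / 2 + t * Complex.I)‖ - 2),
              sq_nonneg (‖cs k c D₂ (1 / 2 + t * Complex.I)‖ - 2)]
          have h4 := gw_nonneg τ H t hH0
          have h5 : 0 ≤ ‖CL α N t‖ ^ (2 * a) * gw τ H t := by positivity
          have h6 := mul_le_mul_of_nonneg_right h2 h5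
          rw [hP₁, hP₂, hP₃]
          calc ‖zl t‖ ^ 2 * ‖CL α N t‖ ^ (2 * a) * gw τ H t =
              ‖zl t‖ ^ 2 * (‖CL α N t‖ ^ (2 * a) * gw τ H t) := by ring
            _ ≤ _ := h6
            _ = _ := by ring
    _ ≤ ∫ t, (3 * P₁ t + 3 * P₂ t + 12 * P₃ t) :=
        setIntegral_le_integral hint (Eventually.of_forall hnn)
    _ = 3 * (∫ t, P₁ t) + 3 * (∫ t, P₂ t) + 12 * ∫ t, P₃ t := by
        have i12 : Integrable (fun t => 3 * P₁ t + 3 * P₂ t) := (i1.const_mul 3).add (i2.const_mul 3)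
        rw [integral_add i12 (i3.const_mul 12), integral_add (i1.const_mul 3) (i2.const_mul 3),
          integral_const_mul, integral_const_mul, integral_const_mul]
    _ ≤ 90 * Lam * U := by linarith
    _ ≤ _ := by
        have : 0 ≤ 90 * Lam := by positivity
        calc 90 * Lam * U ≤ 90 * Lam * (C * Real.log T ^ ((a * α + 1) ^ 2)) := by gcongr
          _ = _ := by ring

end

end Pool.Agent.W5h76.KS
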