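import Pool.Agent.W5h76.KS.B

set_option autoImplicit false

/-! The main term in one window, and the pointwise inequalities. -/

namespace Pool.Agent.W5h76.KS

open Finset MeasureTheory Filter Topology
open Pool.Agent.H306R2
open Pool.Agent.R311.BS (ex gq gq_nonneg Lam Lam_ge_one zX U_lower ev_pow ev_rpow_ge ev_small ev_log_rpow_ge l1)
open Pool.Agent.R311.SE (zl zl_cont Dp_cont mem_real app_val)

noncomputable section

lemma young_pt (n K : ℕ) (hK : 1 ≤ K) (hn : 2 * K ≤ n) (x y μ : ℝ) (hx : 0 ≤ x) (hy : 0 ≤ y) (hμ : 0 < μ) :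
    x * y ^ (2 * n - 2 * K) ≤ μ * y ^ (2 * n) + (μ⁻¹) ^ ((n:ℝ) / K - 1) * x ^ ((n:ℝ) / K) := by
  have hKr : (0:ℝ) < K := by exact_mod_cast hK
  have hq : 1 ≤ (n:ℝ) / K := by
    rw [le_div_iff₀ hKr, one_mul]
    exact_mod_cast (by omega : K ≤ n)
  rcases le_or_gt x (μ * y ^ (2 * K)) with h | h
  · have h1 : x * y ^ (2 * n - 2 * K) ≤ μ * y ^ (2 * n) := by
      calc x * y ^ (2 * n - 2 * K) ≤ (μ * y ^ (2 * K)) * y ^ (2 * n - 2 * K) := by gcongr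
        _ = μ * y ^ (2 * n) := by rw [mul_assoc, ← pow_add]; congr 2; omega
    have : 0 ≤ (μ⁻¹) ^ ((n:ℝ) / K - 1) * x ^ ((n:ℝ) / K) := by positivity
    linarith
  · have hx0 : 0 < x := lt_of_le_of_lt (by positivity) h
    have h2 : y ^ (2 * K) ≤ μ⁻¹ * x := by rw [inv_mul_eq_div, le_div_iff₀ hμ]; linarith
    have h3 : y ^ (2 * n - 2 * K) = (y ^ (2 * K)) ^ ((n:ℝ) / K - 1) := by
      rw [← Real.rpow_natCast y (2 * K), ← Real.rpow_mul hy, ← Real.rpow_natCast]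
      congr 1
      rw [Nat.cast_sub (by omega)]
      push_cast
      field_simp
    have h4 : y ^ (2 * n - 2 * K) ≤ (μ⁻¹ * x) ^ ((n:ℝ) / K - 1) := by
      rw [h3]
      exact Real.rpow_le_rpow (by positivity) h2 (by linarith)
    have h5 : x * (μ⁻¹ * x) ^ ((n:ℝ) / K - 1) = (μ⁻¹) ^ ((n:ℝ) / K - 1) * x ^ ((n:ℝ) / K) := by
      rw [Real.mul_rpow (by positivity) hx]
      have e : x ^ ((n:ℝ) / K) = x ^ ((n:ℝ) / K - 1) * x := by
        rw [← Real.rpow_add_one hx0.ne']; congr 1; ring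
      rw [e]; ring
    have h6 : x * y ^ (2 * n - 2 * K) ≤ x * (μ⁻¹ * x) ^ ((n:ℝ) / K - 1) := by gcongr
    have : 0 ≤ μ * y ^ (2 * n) := by positivity
    linarith

/-- the pointwise inequality: `p` is the indicator of the good set, `d` that of the deleted set -/
lemma point_all (n K : ℕ) (hK : 1 ≤ K) (hn : 2 * K ≤ n) (x y μ e V₁ V₂ m m₃ p d : ℝ) (hx : 0 ≤ x)
    (hy : 0 ≤ y) (hμ : 0 < μ) (he : 0 < e) (hm : 0 < m) (hm3 : 0 < m₃) (h1 : m ^ (2 * K) ≤ e * V₂)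
    (h2 : V₁ ≤ e * m₃ ^ (2 * K)) (hp : 0 ≤ p) (hd : 0 ≤ d)
    (h : p = 1 ∨ d = 1 ∨ x < V₁ ∨ V₂ < x) :
    x * y ^ (2 * n - 2 * K) ≤ (μ + e) * y ^ (2 * n) + e * (x ^ 2 * y ^ (2 * (n - 2 * K))) +
      e⁻¹ * (m ^ 2)⁻¹ * y ^ (2 * (n + 1)) + e⁻¹ * m₃ ^ 2 * y ^ (2 * (n - 1)) +
      (p * ((μ⁻¹) ^ ((n:ℝ) / K - 1) * x ^ ((n:ℝ) / K)) + d * (e⁻¹ * m ^ (2 * n))) := by
  have t1 : 0 ≤ μ * y ^ (2 * n) := by positivity
  have t2 : 0 ≤ e * y ^ (2 * n) := by positivity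
  have t3 : 0 ≤ e * (x ^ 2 * y ^ (2 * (n - 2 * K))) := by positivity
  have t4 : 0 ≤ e⁻¹ * (m ^ 2)⁻¹ * y ^ (2 * (n + 1)) := by positivity
  have t5 : 0 ≤ e⁻¹ * m₃ ^ 2 * y ^ (2 * (n - 1)) := by positivity
  have t6 : 0 ≤ p * ((μ⁻¹) ^ ((n:ℝ) / K - 1) * x ^ ((n:ℝ) / K)) := by positivity
  have t7 : 0 ≤ d * (e⁻¹ * m ^ (2 * n)) := by positivity
  have hbad : y ^ (2 * K) ≤ e * x → x * y ^ (2 * n - 2 * K) ≤ e * (x ^ 2 * y ^ (2 * (n - 2 * K))) := by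
    intro h3
    have e1 : y ^ (2 * n - 2 * K) = y ^ (2 * K) * y ^ (2 * (n - 2 * K)) := by
      rw [← pow_add]; congr 1; omega
    rw [e1]
    calc x * (y ^ (2 * K) * y ^ (2 * (n - 2 * K))) ≤ x * (e * x * y ^ (2 * (n - 2 * K))) := by gcongr
      _ = _ := by ring
  have hbad2 : e * x < y ^ (2 * K) → x * y ^ (2 * n - 2 * K) ≤ e⁻¹ * y ^ (2 * n) := by
    intro h3
    have h4 : x ≤ e⁻¹ * y ^ (2 * K) := by rw [inv_mul_eq_div, le_div_iff₀ he]; linarith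
    calc x * y ^ (2 * n - 2 * K) ≤ e⁻¹ * y ^ (2 * K) * y ^ (2 * n - 2 * K) := by gcongr
      _ = _ := by rw [mul_assoc, ← pow_add]; congr 2; omega
  have hlarge : m ≤ y → y ^ (2 * n) ≤ (m ^ 2)⁻¹ * y ^ (2 * (n + 1)) := by
    intro h3
    rw [inv_mul_eq_div, le_div_iff₀ (by positivity)]
    calc y ^ (2 * n) * m ^ 2 ≤ y ^ (2 * n) * y ^ 2 := by gcongr
      _ = _ := by rw [← pow_add]; congr 1
  rcases h with h | h | h | h
  · have h3 := young_pt n K hK hn x y μ hx hy hμ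
    rw [h, one_mul]
    linarith
  · rw [h, one_mul]
    rcases le_or_gt (y ^ (2 * K)) (e * x) with h3 | h3
    · have := hbad h3
      have h8 : 0 ≤ e⁻¹ * m ^ (2 * n) := by positivity
      linarith
    · have h4 := hbad2 h3
      have h8 : 0 ≤ e⁻¹ * m ^ (2 * n) := by positivity
      rcases le_or_gt m y with h5 | h5
      · have h6 := mul_le_mul_of_nonneg_left (hlarge h5) (inv_nonneg.mpr he.le)
        rw [← mul_assoc] at h6
        linarith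
      · have h6 : y ^ (2 * n) ≤ m ^ (2 * n) := pow_le_pow_left₀ hy h5.le _
        have h7 := mul_le_mul_of_nonneg_left h6 (inv_nonneg.mpr he.le)
        linarith
  · rcases le_or_gt (y ^ (2 * K)) (e * x) with h3 | h3
    · have := hbad h3
      linarith
    · have h4 := hbad2 h3
      rcases le_or_gt y m₃ with h5 | h5
      · have h6 : y ^ (2 * n) ≤ m₃ ^ 2 * y ^ (2 * (n - 1)) := by
          have e1 : y ^ (2 * n) = y ^ 2 * y ^ (2 * (n - 1)) := by rw [← pow_add]; congr 1; omega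
          rw [e1]
          gcongr
        have h7 := mul_le_mul_of_nonneg_left h6 (inv_nonneg.mpr he.le)
        rw [← mul_assoc] at h7
        linarith
      · have h6 : m₃ ^ (2 * K) ≤ y ^ (2 * K) := pow_le_pow_left₀ hm3.le h5.le _
        have h7 : x ≤ e * y ^ (2 * K) := by
          have := mul_le_mul_of_nonneg_left h6 he.le
          linarith
        have h8 : x * y ^ (2 * n - 2 * K) ≤ e * y ^ (2 * n) := by
          calc x * y ^ (2 * n - 2 * K) ≤ (e * y ^ (2 * K)) * y ^ (2 * n - 2 * K) := by gcongr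
            _ = _ := by rw [mul_assoc, ← pow_add]; congr 2; omega
        linarith
  · rcases le_or_gt (y ^ (2 * K)) (e * x) with h3 | h3
    · have := hbad h3
      linarith
    · have h4 := hbad2 h3
      have h5 : m ≤ y := by
        have h6 : m ^ (2 * K) ≤ y ^ (2 * K) := by
          have h7 : e * V₂ ≤ e * x := mul_le_mul_of_nonneg_left h.le he.le
          linarith
        exact le_of_pow_le_pow_left₀ (by omega) hy h6
      have h6 := mul_le_mul_of_nonneg_left (hlarge h5) (inv_nonneg.mpr he.le)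
      rw [← mul_assoc] at h6
      linarith

/-- the main term in one window -/
theorem main_term (n K : ℕ) (hK : 1 ≤ K) (hn : 2 * K ≤ n) (η ν : ℝ) (hη : 0 < η) (hη1 : η ≤ 1 / 100)
    (hν : 0 < ν) (hνn : ν * ((n:ℝ) + 1) ≤ η) :
    ∃ c : ℝ, 0 < c ∧ ∀ᶠ T : ℝ in atTop, ∀ τ : ℝ, T ≤ τ → τ ≤ 3 * T →
      c * Real.log T ^ (((n:ℝ) / (2 * K)) ^ 2) ≤
        ∫ t in Set.Ioc (τ - T ^ (1 / 2 + 3 * η)) (τ + T ^ (1 / 2 + 3 * η)),
          ‖zl t‖ * ‖CL (1 / (2 * (K:ℝ))) (T ^ ν) t‖ ^ (2 * n - 2 * K) * gw τ (T ^ (1 / 2 + 2 * η)) t := by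
  have hKr : (1:ℝ) ≤ K := by exact_mod_cast hK
  have hKr0 : (0:ℝ) < K := by linarith
  have hnr : 2 * (K:ℝ) ≤ n := by exact_mod_cast hn
  obtain ⟨α, hα⟩ : ∃ α : ℝ, α = 1 / (2 * (K:ℝ)) := ⟨_, rfl⟩
  have hα0 : 0 ≤ α := by rw [hα]; positivity
  have hα1 : α ≤ 1 := by rw [hα, div_le_one (by positivity)]; linarith
  obtain ⟨κ, hκ⟩ : ∃ κ : ℝ, κ = (n:ℝ) / (2 * K) := ⟨_, rfl⟩
  have hκ1 : 1 ≤ κ := by rw [hκ, le_div_iff₀ (by positivity)]; linarith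
  have hbκ : (n:ℝ) * α = κ := by rw [hκ, hα]; ring
  have haκ : ((n - 2 * K : ℕ) : ℝ) * α + 1 = κ := by
    rw [← hbκ, Nat.cast_sub hn, hα]
    push_cast
    field_simp
    ring
  obtain ⟨cS, hcS, hSev⟩ := U_lower (κ := κ) hκ1
  rw [← hα, ← hκ]
  obtain ⟨A, hA⟩ : ∃ A : ℝ, A = cS * ν ^ (κ ^ 2) := ⟨_, rfl⟩
  have hApos : 0 < A := by rw [hA]; positivity
  obtain ⟨B, hBd⟩ : ∃ B : ℝ, B = ((10:ℝ) ^ (n + 2)) ^ 2 := ⟨_, rfl⟩
  have hBpos : 0 < B := by rw [hBd]; positivity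
  refine ⟨A / 2, by positivity, ?_⟩
  have ev1 : ∀ᶠ T : ℝ in atTop, cS * (ν * Real.log T) ^ (κ ^ 2) ≤
      ∑ n ∈ Icc 1 ⌊T ^ ν⌋₊, dv κ n ^ 2 / n := by
    have h1 : Tendsto (fun T : ℝ => ν * Real.log T) atTop atTop :=
      Real.tendsto_log_atTop.const_mul_atTop hν
    filter_upwards [h1.eventually hSev, eventually_gt_atTop 0] with T hT hT0
    rw [Real.rpow_def_of_pos hT0, mul_comm (Real.log T)]
    exact hT
  filter_upwards [ev1, ev_small (4 * (n + 2)) (1 / 36) (1 + 2 * η) (3 * B) (by norm_num) (by positivity),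
    ev_small (4 * (n + 2)) (1 / 2) (2 * η) (6 * B) (by norm_num) (by positivity),
    ev_pow (3 * (1575 * Real.sqrt 2)) (1 / 2 - 2 * η) (by linarith),
    ev_log_rpow_ge 2 A (κ ^ 2) hApos (by positivity),
    ev_pow 4 (1 / 2 - 3 * η) (by linarith), eventually_ge_atTop 1000]
    with T g1 g2 g3 g4 g5 g6 hT τ hτ1 hτ2
  have hT0 : 0 < T := by linarith only [hT]
  have hT1 : 1 ≤ T := by linarith only [hT]
  have hℓ0 : 0 < Real.log T := Real.log_pos (by linarith only [hT])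
  obtain ⟨N, hNdef⟩ : ∃ N : ℝ, N = T ^ ν := ⟨_, rfl⟩
  rw [← hNdef] at g1 ⊢
  have hN1 : 1 ≤ N := by rw [hNdef]; exact Real.one_le_rpow hT1 hν.le
  have hνn' : ν * n ≤ η := by nlinarith
  have hNn : N ^ n ≤ T ^ η := by
    rw [hNdef, ← Real.rpow_natCast, ← Real.rpow_mul hT0.le]
    exact Real.rpow_le_rpow_of_exponent_le hT1 hνn'
  have hTη : T ^ η ≤ T := by
    calc T ^ η ≤ T ^ (1:ℝ) := Real.rpow_le_rpow_of_exponent_le hT1 (by linarith)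
      _ = T := Real.rpow_one T
  obtain ⟨X₀, hX₀⟩ : ∃ X₀ : ℕ, X₀ = ⌈3 * τ⌉₊ := ⟨_, rfl⟩
  have hτ0 : 0 < τ := by linarith only [hτ1, hT0]
  have hX3 : 3 * τ ≤ X₀ := by rw [hX₀]; exact Nat.le_ceil _
  have hX4 : (X₀:ℝ) ≤ 3 * τ + 1 := by
    rw [hX₀]
    exact (Nat.ceil_lt_add_one (by linarith only [hτ0])).le
  have hXT : (X₀:ℝ) ≤ 10 * T := by linarith only [hX4, hτ2, hT]
  have hXTl : T ≤ (X₀:ℝ) := by linarith only [hX3, hτ1, hT0]
  have hX0 : (0:ℝ) ≤ X₀ := Nat.cast_nonneg _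
  have hX1 : (1:ℝ) ≤ X₀ := hT1.trans hXTl
  have hNX : N ^ n ≤ (X₀:ℝ) := by linarith only [hNn, hTη, hXTl]
  obtain ⟨H, hHdef⟩ : ∃ H : ℝ, H = T ^ (1 / 2 + 2 * η) := ⟨_, rfl⟩
  have hH : 0 < H := by rw [hHdef]; exact Real.rpow_pos_of_pos hT0 _
  obtain ⟨R, hRdef⟩ : ∃ R : ℝ, R = T ^ (1 / 2 + 3 * η) := ⟨_, rfl⟩
  have hR : 0 < R := by rw [hRdef]; exact Real.rpow_pos_of_pos hT0 _
  rw [← hHdef, ← hRdef]
  obtain ⟨Z, hZdef⟩ : ∃ Z : ℝ, Z = 3 * N ^ n := ⟨_, rfl⟩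
  have hNn1 : 1 ≤ N ^ n := one_le_pow₀ hN1
  have hZ3 : 3 ≤ Z := by rw [hZdef]; linarith only [hNn1]
  obtain ⟨ρ, hρdef⟩ : ∃ ρ : ℝ, ρ = 1 / Z := ⟨_, rfl⟩
  have hZ0 : 0 < Z := by linarith only [hZ3]
  have hρ0 : 0 < ρ := by rw [hρdef]; exact one_div_pos.mpr hZ0
  have hρ1 : ρ ≤ 1 := by rw [hρdef, div_le_one hZ0]; linarith only [hZ3]
  have hZe : N ^ n * Real.exp 1 ≤ Z := by
    rw [hZdef]
    have := Real.exp_one_lt_d9
    nlinarith only [this, hNn1]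
  obtain ⟨L, hLdef⟩ : ∃ L : ℝ, L = 10 ^ (n + 2) * T ^ (2 * (n + 2)) := ⟨_, rfl⟩
  have hL : (N ^ n * (X₀:ℝ)) ^ (n + 2) ≤ L := by
    have h1 : N ^ n * (X₀:ℝ) ≤ 10 * T ^ 2 := by
      calc N ^ n * (X₀:ℝ) ≤ T * (10 * T) := mul_le_mul (hNn.trans hTη) hXT hX0 hT0.le
        _ = 10 * T ^ 2 := by ring
    calc (N ^ n * (X₀:ℝ)) ^ (n + 2) ≤ (10 * T ^ 2) ^ (n + 2) := pow_le_pow_left₀ (by positivity) h1 _
      _ = L := by rw [hLdef, mul_pow, ← pow_mul]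
  have hLL : L * L = B * T ^ (4 * (n + 2)) := by
    rw [hLdef, hBd]
    have : T ^ (4 * (n + 2)) = T ^ (2 * (n + 2)) * T ^ (2 * (n + 2)) := by
      rw [← pow_add]; congr 1; omega
    rw [this]; ring
  have h4R : 4 * R ≤ T := by
    have e1 : 4 * R = (4 * T ^ (-(1 / 2 - 3 * η))) * T := by
      have : T ^ (1 / 2 + 3 * η) = T ^ (-(1 / 2 - 3 * η)) * T := by
        conv_rhs => rw [← Real.rpow_one T, ← Real.rpow_mul hT0.le, ← Real.rpow_add hT0]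
        congr 1; ring
      rw [hRdef, this]; ring
    rw [e1]
    calc _ ≤ 1 * T := by gcongr
      _ = T := one_mul T
  obtain ⟨e₁, he₁def⟩ : ∃ e₁ : ℝ, e₁ = 1575 * (Real.sqrt 2 * T ^ (-(1 / 2) : ℝ)) := ⟨_, rfl⟩
  have he₁0 : 0 ≤ e₁ := by rw [he₁def]; positivity
  have happ := app_val hT hτ1 h4R hX3 hX4 he₁def
  have h1N : 1 ≤ N ^ (n - 2 * K) := one_le_pow₀ hN1
  have hJ := LJ hα0 hα1 (n - 2 * K) n ({0} : Finset ℤ) (mem_singleton_self 0) (fun _ => (1:ℂ)) 1 (by simp)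
    N X₀ Z ρ τ H R e₁ 0 L hN1 hX1 (hNX.trans (le_mul_of_one_le_left hX0 h1N)) hρ0.le hρ1 hZe (le_of_eq hρdef)
    hH hR.le he₁0 ((l1_zC hα0 hα1 N X₀ hN1 hX1 (n - 2 * K) n (by omega)).trans hL)
    ((l1_Cq hα0 hα1 N X₀ hN1 hX1 n n le_rfl).trans hL) happ (by
      intro m hm hm0
      exact absurd (mem_singleton.mp hm) hm0)
  have hab : n - 2 * K + n = 2 * n - 2 * K := by omega
  rw [hab, one_mul] at hJ
  -- the errors
  have hgq : gq H ρ ≤ Real.exp (-(1 / 36 * T ^ (1 + 2 * η))) := by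
    unfold gq
    apply Real.exp_le_exp.mpr
    apply neg_le_neg
    have e1 : H ^ 2 = T ^ (1 + 2 * η) * (T ^ η) ^ 2 := by
      rw [hHdef, ← Real.rpow_natCast, ← Real.rpow_natCast, ← Real.rpow_mul hT0.le, ← Real.rpow_mul hT0.le,
        ← Real.rpow_add hT0]
      congr 1; push_cast; ring
    have e2 : 1 ≤ T ^ η * (1 / N ^ n) := by
      rw [mul_one_div, le_div_iff₀ (by positivity), one_mul]
      exact hNn
    have e3 : ρ = 1 / 3 * (1 / N ^ n) := by rw [hρdef, hZdef]; field_simp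
    have e4 : H ^ 2 * ρ ^ 2 / 4 = 1 / 36 * T ^ (1 + 2 * η) * (T ^ η * (1 / N ^ n)) ^ 2 := by
      rw [e1, e3]; ring
    rw [e4]
    have e5 : 1 ≤ (T ^ η * (1 / N ^ n)) ^ 2 := one_le_pow₀ e2
    have e6 : 0 ≤ 1 / 36 * T ^ (1 + 2 * η) := by positivity
    nlinarith
  have hRH : Real.exp (-(R ^ 2 / (2 * H ^ 2))) = Real.exp (-(1 / 2 * T ^ (2 * η))) := by
    congr 1
    have e1 : R ^ 2 = H ^ 2 * T ^ (2 * η) := by
      rw [hHdef, hRdef, ← Real.rpow_natCast, ← Real.rpow_natCast, ← Real.rpow_mul hT0.le,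
        ← Real.rpow_mul hT0.le, ← Real.rpow_add hT0]
      congr 1; push_cast; ring
    rw [e1]
    field_simp
  have hE1 : L * L * gq H ρ ≤ 1 / 3 := by
    rw [hLL]
    calc B * T ^ (4 * (n + 2)) * gq H ρ ≤ B * T ^ (4 * (n + 2)) * Real.exp (-(1 / 36 * T ^ (1 + 2 * η))) := by
          gcongr
      _ = (3 * B * (T ^ (4 * (n + 2)) * Real.exp (-(1 / 36 * T ^ (1 + 2 * η))))) / 3 := by ring
      _ ≤ 1 / 3 := by gcongr
  have hE2 : L * L * (2 * Real.exp (-(R ^ 2 / (2 * H ^ 2)))) ≤ 1 / 3 := by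
    rw [hLL, hRH]
    calc B * T ^ (4 * (n + 2)) * (2 * Real.exp (-(1 / 2 * T ^ (2 * η)))) =
        (6 * B * (T ^ (4 * (n + 2)) * Real.exp (-(1 / 2 * T ^ (2 * η))))) / 3 := by ring
      _ ≤ 1 / 3 := by gcongr
  have hE3 : e₁ * N ^ (2 * n - 2 * K) ≤ 1 / 3 := by
    have h1 : N ^ (2 * n - 2 * K) ≤ T ^ (2 * η) := by
      calc N ^ (2 * n - 2 * K) ≤ N ^ (2 * n) := pow_le_pow_right₀ hN1 (by omega)
        _ = (N ^ n) ^ 2 := by rw [← pow_mul, mul_comm]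
        _ ≤ (T ^ η) ^ 2 := pow_le_pow_left₀ (by positivity) hNn 2
        _ = T ^ (2 * η) := by
            rw [← Real.rpow_natCast, ← Real.rpow_mul hT0.le]
            congr 1; push_cast; ring
    calc e₁ * N ^ (2 * n - 2 * K) ≤ e₁ * T ^ (2 * η) := by gcongr
      _ = (3 * (1575 * Real.sqrt 2) * (T ^ (-(1 / 2) : ℝ) * T ^ (2 * η))) / 3 := by rw [he₁def]; ring
      _ = (3 * (1575 * Real.sqrt 2) * T ^ (-(1 / 2 - 2 * η))) / 3 := by
          rw [← Real.rpow_add hT0]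
          congr 3
          ring
      _ ≤ 1 / 3 := by gcongr
  have hSc := Sc_ge hα0 N X₀ hN1 ((le_trans (by
    calc N = N ^ 1 := (pow_one N).symm
      _ ≤ N ^ n := pow_le_pow_right₀ hN1 (by omega)) hNX)) (n - 2 * K) n (by omega) haκ hbκ hNX
  have hSc0 := Sc_nonneg hα0 N X₀ (n - 2 * K) n hNX
  have g1' := g1.trans hSc
  rw [Real.mul_rpow hν.le hℓ0.le, ← mul_assoc, ← hA] at g1'
  obtain ⟨J, hJd⟩ : ∃ J : ℂ, J = ∫ t in Set.Ioc (τ - R) (τ + R),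
    ((∑ m ∈ ({0} : Finset ℤ), (1:ℂ) * ex (m * 0) t) *
        (zl t * CL α N t ^ (n - 2 * K) * (starRingEnd ℂ) (CL α N t ^ n))) * (gw τ H t : ℂ) := ⟨_, rfl⟩
  have hJ' : ‖J - ((Sc α N X₀ (n - 2 * K) n : ℝ) : ℂ)‖ ≤ 1 := by
    rw [hJd]
    refine hJ.trans ?_
    linarith
  have hJl : Sc α N X₀ (n - 2 * K) n - 1 ≤ ‖J‖ := by
    have h1 := norm_sub_norm_le ((Sc α N X₀ (n - 2 * K) n : ℝ) : ℂ) J
    rw [norm_sub_rev, Complex.norm_real, Real.norm_of_nonneg hSc0] at h1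
    linarith
  have hJu : ‖J‖ ≤ ∫ t in Set.Ioc (τ - R) (τ + R), ‖zl t‖ * ‖CL α N t‖ ^ (2 * n - 2 * K) * gw τ H t := by
    rw [hJd]
    refine (norm_integral_le_integral_norm _).trans (le_of_eq ?_)
    refine setIntegral_congr_fun measurableSet_Ioc fun t _ => ?_
    have a2 := gw_nonneg τ H t hH
    have e0 : (∑ m ∈ ({0} : Finset ℤ), (1:ℂ) * ex (m * 0) t) = 1 := by
      rw [sum_singleton]
      unfold ex
      simp
    rw [e0, one_mul, norm_mul, norm_mul, norm_mul, RCLike.norm_conj, norm_pow, norm_pow, Complex.norm_real,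
      Real.norm_of_nonneg a2, ← hab, pow_add]
    ring
  linarith

end

end Pool.Agent.W5h76.KS
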