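import Pool.Agent.W5h76.KS.C

set_option autoImplicit false

/-! The inequality in one window, with the critical level and a deleted set. -/

namespace Pool.Agent.W5h76.KS

open Finset MeasureTheory Filter Topology
open Pool.Agent.H306R2
open Pool.Agent.R311.BS (Lam Lam_ge_one ev_pow ev_rpow_ge ev_log_rpow_ge)
open Pool.Agent.R311.SE (zl zl_cont ev_logpow)

noncomputable section

/-- the points where `|zeta|` lies between two bounds -/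
def Lev (V₁ V₂ : ℝ) : Set ℝ := {t | V₁ ≤ ‖zl t‖ ∧ ‖zl t‖ ≤ V₂}

lemma Lev_meas (V₁ V₂ : ℝ) : MeasurableSet (Lev V₁ V₂) := by
  have c := zl_cont.norm
  exact (isClosed_le continuous_const c).measurableSet.inter (isClosed_le c continuous_const).measurableSet

/-- the inequality in one window -/
theorem window (n K : ℕ) (hK : 1 ≤ K) (hn : 2 * K ≤ n) (η δ : ℝ) (hη : 0 < η) (hη1 : η ≤ 1 / 100)
    (hδ : 1 / (2 * (K:ℝ)) < δ) :
    ∃ c C M : ℝ, 0 < c ∧ 0 < C ∧ 0 < M ∧ ∀ᶠ T : ℝ in atTop, ∀ τ : ℝ, T ≤ τ → τ ≤ 3 * T →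
      ∀ D : Set ℝ, MeasurableSet D →
      c * Real.log T ^ (((n:ℝ) / (2 * K)) ^ 2) ≤
        ∫ t in Set.Ioc (τ - T ^ (1 / 2 + 3 * η)) (τ + T ^ (1 / 2 + 3 * η)),
          (C * (Dᶜ ∩ Lev (Real.log T ^ ((n:ℝ) / (2 * K) - δ)) (Real.log T ^ ((n:ℝ) / (2 * K) + δ))).indicator
            (fun t => ‖zl t‖ ^ ((n:ℝ) / K) * gw τ (T ^ (1 / 2 + 2 * η)) t) t +
          M * Real.log T ^ ((n:ℝ) * (n + 1) / (2 * K ^ 2)) *
            D.indicator (fun t => gw τ (T ^ (1 / 2 + 2 * η)) t) t) := by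
  have hKr : (1:ℝ) ≤ K := by exact_mod_cast hK
  have hKr0 : (0:ℝ) < K := by linarith
  have hnr : 2 * (K:ℝ) ≤ n := by exact_mod_cast hn
  have hn1 : (1:ℝ) < n := by linarith
  have hn0 : (0:ℝ) < n := by linarith
  obtain ⟨α, hα⟩ : ∃ α : ℝ, α = 1 / (2 * (K:ℝ)) := ⟨_, rfl⟩
  have hα0 : 0 < α := by rw [hα]; positivity
  obtain ⟨κ, hκ⟩ : ∃ κ : ℝ, κ = (n:ℝ) / (2 * K) := ⟨_, rfl⟩
  have hκ1 : 1 ≤ κ := by rw [hκ, le_div_iff₀ (by positivity)]; linarith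
  have hbκ : (n:ℝ) * α = κ := by rw [hκ, hα]; ring
  have haκ : ((n - 2 * K : ℕ) : ℝ) * α + 1 = κ := by
    rw [← hbκ, Nat.cast_sub hn, hα]
    push_cast
    field_simp
    ring
  have hpκ : ((n + 1 : ℕ) : ℝ) * α = κ + α := by push_cast; rw [← hbκ]; ring
  have hmκ : ((n - 1 : ℕ) : ℝ) * α = κ - α := by
    rw [Nat.cast_sub (by omega), ← hbκ]; push_cast; ring
  obtain ⟨ν, hν⟩ : ∃ ν : ℝ, ν = η / ((n:ℝ) + 1) := ⟨_, rfl⟩
  have hν0 : 0 < ν := by rw [hν]; positivity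
  have hνn : ν * ((n:ℝ) + 1) = η := by rw [hν]; field_simp
  obtain ⟨c₀, hc₀, hmain⟩ := main_term n K hK hn η ν hη hη1 hν0 hνn.le
  have hνa : ν * ((n - 2 * K : ℕ) : ℝ) ≤ η := by
    rw [← hνn, Nat.cast_sub hn]
    push_cast
    nlinarith
  obtain ⟨C₂, hC₂, htw⟩ := tw hα0.le (n - 2 * K) η ν hη hη1 hν0 hνa
  obtain ⟨C₃, hC₃, hU3⟩ := U_log (κ := κ) (by linarith)
  obtain ⟨C₄, hC₄, hU4⟩ := U_log (κ := κ + α) (by linarith)
  obtain ⟨C₅, hC₅, hU5⟩ := U_log (κ := κ - α) (by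
    rw [← hmκ, Nat.cast_sub (by omega)]
    push_cast
    exact mul_pos (by linarith) hα0)
  have hLam := Lam_ge_one
  have hLam0 : 0 < Lam := by linarith
  obtain ⟨W, hW⟩ : ∃ W : ℝ, W = 5 * Lam * C₃ + C₂ := ⟨_, rfl⟩
  have hW0 : 0 < W := by rw [hW]; positivity
  obtain ⟨e, he⟩ : ∃ e : ℝ, e = c₀ / (16 * W) := ⟨_, rfl⟩
  have he0 : 0 < e := by rw [he]; positivity
  have heW : e * W = c₀ / 16 := by rw [he]; field_simp
  obtain ⟨E, hE⟩ : ∃ E : ℝ, E = ((n:ℝ) ^ 2 - 1) / (4 * K ^ 2) := ⟨_, rfl⟩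
  have hEκ : E < κ ^ 2 := by
    rw [hE, hκ, div_pow, mul_pow]
    norm_num
    gcongr
    linarith
  refine ⟨c₀ / 2, (e⁻¹) ^ ((n:ℝ) / K - 1), e⁻¹, by positivity, by positivity, by positivity, ?_⟩
  rw [← hκ]
  rw [← hκ] at hmain
  rw [← hα] at hmain hδ
  rw [haκ] at htw
  filter_upwards [hmain, htw, hU3, hU4, hU5,
    ev_logpow (8 * (e⁻¹ * (5 * Lam * C₄)) / c₀) _ _ hEκ, ev_logpow (8 * (e⁻¹ * (5 * Lam * C₅)) / c₀) _ _ hEκ,
    ev_logpow (1 / e) (κ + α) (κ + δ) (by linarith), ev_logpow (1 / e) (κ - δ) (κ - α) (by linarith),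
    Real.tendsto_log_atTop.eventually_ge_atTop 1, eventually_ge_atTop 1]
    with T g1 g2 g3 g4 g5 g6 g7 g8 g9 hL1 hT1 τ hτ1 hτ2 D hD
  have hT0 : 0 < T := by linarith
  have hL0 : 0 < Real.log T := by linarith
  obtain ⟨ℓ, hℓ⟩ : ∃ ℓ : ℝ, ℓ = Real.log T := ⟨_, rfl⟩
  rw [← hℓ] at hL0 hL1 g3 g4 g5 g6 g7 g8 g9 ⊢
  have k1 := g1 τ hτ1 hτ2
  have k2 := g2 τ hτ1 hτ2
  clear g1 g2
  rw [← hℓ] at k1 k2
  obtain ⟨N, hNdef⟩ : ∃ N : ℝ, N = T ^ ν := ⟨_, rfl⟩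
  rw [← hNdef] at k1 k2
  have hN1 : 1 ≤ N := by rw [hNdef]; exact Real.one_le_rpow hT1 hν0.le
  have hNn : N ^ (n + 1) ≤ T ^ η := by
    rw [hNdef, ← Real.rpow_natCast, ← Real.rpow_mul hT0.le]
    refine Real.rpow_le_rpow_of_exponent_le hT1 ?_
    push_cast
    exact hνn.le
  obtain ⟨H, hHdef⟩ : ∃ H : ℝ, H = T ^ (1 / 2 + 2 * η) := ⟨_, rfl⟩
  have hH : 0 < H := by rw [hHdef]; exact Real.rpow_pos_of_pos hT0 _
  have hTH : T ^ η ≤ H := by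
    rw [hHdef]
    exact Real.rpow_le_rpow_of_exponent_le hT1 (by linarith)
  have hHT : H ≤ T := by
    rw [hHdef]
    calc T ^ (1 / 2 + 2 * η) ≤ T ^ (1:ℝ) := Real.rpow_le_rpow_of_exponent_le hT1 (by linarith)
      _ = T := Real.rpow_one T
  rw [← hHdef] at k1 k2 ⊢
  obtain ⟨R, hRdef⟩ : ∃ R : ℝ, R = T ^ (1 / 2 + 3 * η) := ⟨_, rfl⟩
  rw [← hRdef] at k1 k2 ⊢
  have hNk : ∀ k : ℕ, k ≤ n + 1 → N ^ k ≤ H := fun k hk =>
    (pow_le_pow_right₀ hN1 hk).trans (hNn.trans hTH)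
  obtain ⟨i3, j3⟩ := pow_sq hα0.le n N τ H T hN1 hH (hNk n (by omega)) hHT
  obtain ⟨i4, j4⟩ := pow_sq hα0.le (n + 1) N τ H T hN1 hH (hNk (n + 1) le_rfl) hHT
  obtain ⟨i5, j5⟩ := pow_sq hα0.le (n - 1) N τ H T hN1 hH (hNk (n - 1) (by omega)) hHT
  rw [hbκ] at j3
  rw [hpκ] at j4
  rw [hmκ] at j5
  -- the thresholds
  obtain ⟨m, hm⟩ : ∃ m : ℝ, m = ℓ ^ (((n:ℝ) + 1) / (4 * K ^ 2)) := ⟨_, rfl⟩
  obtain ⟨m₃, hm₃⟩ : ∃ m₃ : ℝ, m₃ = ℓ ^ (((n:ℝ) - 1) / (4 * K ^ 2)) := ⟨_, rfl⟩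
  have hm0 : 0 < m := by rw [hm]; exact Real.rpow_pos_of_pos hL0 _
  have hm30 : 0 < m₃ := by rw [hm₃]; exact Real.rpow_pos_of_pos hL0 _
  have hmK : m ^ (2 * K) = ℓ ^ (κ + α) := by
    rw [hm, ← Real.rpow_natCast, ← Real.rpow_mul hL0.le]
    congr 1
    rw [hκ, hα]; push_cast; field_simp; ring
  have hm3K : m₃ ^ (2 * K) = ℓ ^ (κ - α) := by
    rw [hm₃, ← Real.rpow_natCast, ← Real.rpow_mul hL0.le]
    congr 1
    rw [hκ, hα]; push_cast; field_simp; ring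
  have hm2n : m ^ (2 * n) = ℓ ^ ((n:ℝ) * (n + 1) / (2 * K ^ 2)) := by
    rw [hm, ← Real.rpow_natCast, ← Real.rpow_mul hL0.le]
    congr 1
    push_cast; field_simp; ring
  have hVa : m ^ (2 * K) ≤ e * ℓ ^ (κ + δ) := by
    rw [hmK]
    rw [div_mul_eq_mul_div, one_mul, div_le_iff₀ he0] at g8
    linarith
  have hVb : ℓ ^ (κ - δ) ≤ e * m₃ ^ (2 * K) := by
    rw [hm3K]
    rw [div_mul_eq_mul_div, one_mul, div_le_iff₀ he0] at g9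
    linarith
  have hm4 : (m ^ 2)⁻¹ * ℓ ^ ((κ + α) ^ 2) = ℓ ^ E := by
    rw [hm, ← Real.rpow_natCast, ← Real.rpow_mul hL0.le, ← Real.rpow_neg hL0.le, ← Real.rpow_add hL0]
    congr 1
    rw [hκ, hα, hE]; push_cast; field_simp; ring
  have hm5 : m₃ ^ 2 * ℓ ^ ((κ - α) ^ 2) = ℓ ^ E := by
    rw [hm₃, ← Real.rpow_natCast, ← Real.rpow_mul hL0.le, ← Real.rpow_add hL0]
    congr 1
    rw [hκ, hα, hE]; push_cast; field_simp; ring
  -- the integrals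
  obtain ⟨I, hI⟩ : ∃ I : Set ℝ, I = Set.Ioc (τ - R) (τ + R) := ⟨_, rfl⟩
  have hIm : MeasurableSet I := by rw [hI]; exact measurableSet_Ioc
  rw [← hI] at k1 k2 ⊢
  obtain ⟨G, hG⟩ : ∃ G : Set ℝ, G = Dᶜ ∩ Lev (ℓ ^ (κ - δ)) (ℓ ^ (κ + δ)) := ⟨_, rfl⟩
  have hGm : MeasurableSet G := by rw [hG]; exact hD.compl.inter (Lev_meas _ _)
  rw [← hG]
  obtain ⟨f₁, hf₁⟩ : ∃ f : ℝ → ℝ, f = fun t => ‖CL α N t‖ ^ (2 * n) * gw τ H t := ⟨_, rfl⟩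
  obtain ⟨f₂, hf₂⟩ : ∃ f : ℝ → ℝ, f = fun t => ‖zl t‖ ^ 2 * ‖CL α N t‖ ^ (2 * (n - 2 * K)) * gw τ H t := ⟨_, rfl⟩
  obtain ⟨f₃, hf₃⟩ : ∃ f : ℝ → ℝ, f = fun t => ‖CL α N t‖ ^ (2 * (n + 1)) * gw τ H t := ⟨_, rfl⟩
  obtain ⟨f₄, hf₄⟩ : ∃ f : ℝ → ℝ, f = fun t => ‖CL α N t‖ ^ (2 * (n - 1)) * gw τ H t := ⟨_, rfl⟩
  obtain ⟨F, hF⟩ : ∃ F : ℝ → ℝ, F = fun t => (e⁻¹) ^ ((n:ℝ) / K - 1) * G.indicator
      (fun t => ‖zl t‖ ^ ((n:ℝ) / K) * gw τ H t) t +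
      e⁻¹ * ℓ ^ ((n:ℝ) * (n + 1) / (2 * K ^ 2)) * D.indicator (fun t => gw τ H t) t := ⟨_, rfl⟩
  have hFe : ∫ t in I, ((e⁻¹) ^ ((n:ℝ) / K - 1) * G.indicator
      (fun t => ‖zl t‖ ^ ((n:ℝ) / K) * gw τ H t) t +
      e⁻¹ * ℓ ^ ((n:ℝ) * (n + 1) / (2 * K ^ 2)) * D.indicator (fun t => gw τ H t) t) = ∫ t in I, F t := by
    rw [hF]
  rw [hFe]
  rw [← hf₁] at i3 j3
  rw [← hf₃] at i4 j4
  rw [← hf₄] at i5 j5
  have k2' : ∫ t in I, f₂ t ≤ C₂ * ℓ ^ (κ ^ 2) := by rw [hf₂]; exact k2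
  have cz := zl_cont
  have cA := CL_cont α N
  have cg := gw_continuous τ H
  have hg0 := fun t => gw_nonneg τ H t hH
  have hcIr : ∀ F : ℝ → ℝ, Continuous F → IntegrableOn F I := fun F hF => by
    rw [hI]
    exact (hF.integrableOn_Icc (a := τ - R) (b := τ + R)).mono_set Set.Ioc_subset_Icc_self
  have i2 : IntegrableOn f₂ I := hcIr _ (by rw [hf₂]; fun_prop)
  have iP : IntegrableOn (fun t => ‖zl t‖ * ‖CL α N t‖ ^ (2 * n - 2 * K) * gw τ H t) I :=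
    hcIr _ (by fun_prop)
  have hq0 : 0 ≤ (n:ℝ) / K := by positivity
  have iq : IntegrableOn (fun t => ‖zl t‖ ^ ((n:ℝ) / K) * gw τ H t) I :=
    hcIr _ ((cz.norm.rpow_const fun t => Or.inr hq0).mul cg)
  have iF : IntegrableOn F I := by
    rw [hF]
    exact ((iq.indicator hGm).const_mul _).add (((hcIr _ cg).indicator hD).const_mul _)
  have s1 : IntegrableOn (fun t => (e + e) * f₁ t) I := (i3.const_mul _).integrableOn
  have s2 : IntegrableOn (fun t => e * f₂ t) I := i2.const_mul _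
  have s3 : IntegrableOn (fun t => e⁻¹ * (m ^ 2)⁻¹ * f₃ t) I := (i4.const_mul _).integrableOn
  have s4 : IntegrableOn (fun t => e⁻¹ * m₃ ^ 2 * f₄ t) I := (i5.const_mul _).integrableOn
  have s12 : IntegrableOn (fun t => (e + e) * f₁ t + e * f₂ t) I := s1.add s2
  have s123 : IntegrableOn (fun t => (e + e) * f₁ t + e * f₂ t + e⁻¹ * (m ^ 2)⁻¹ * f₃ t) I := s12.add s3
  have s1234 : IntegrableOn (fun t => (e + e) * f₁ t + e * f₂ t + e⁻¹ * (m ^ 2)⁻¹ * f₃ t +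
      e⁻¹ * m₃ ^ 2 * f₄ t) I := s123.add s4
  have hle : ∫ t in I, ‖zl t‖ * ‖CL α N t‖ ^ (2 * n - 2 * K) * gw τ H t ≤
      ∫ t in I, ((e + e) * f₁ t + e * f₂ t + e⁻¹ * (m ^ 2)⁻¹ * f₃ t + e⁻¹ * m₃ ^ 2 * f₄ t + F t) := by
    refine setIntegral_mono_on iP (s1234.add iF) hIm fun t _ => ?_
    obtain ⟨p, hp⟩ : ∃ p : ℝ, p = G.indicator (fun _ => (1:ℝ)) t := ⟨_, rfl⟩
    obtain ⟨d, hd⟩ : ∃ d : ℝ, d = D.indicator (fun _ => (1:ℝ)) t := ⟨_, rfl⟩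
    have hp0 : 0 ≤ p := by rw [hp]; exact Set.indicator_nonneg (fun _ _ => zero_le_one) t
    have hd0 : 0 ≤ d := by rw [hd]; exact Set.indicator_nonneg (fun _ _ => zero_le_one) t
    have hcase : p = 1 ∨ d = 1 ∨ ‖zl t‖ < ℓ ^ (κ - δ) ∨ ℓ ^ (κ + δ) < ‖zl t‖ := by
      by_cases h1 : t ∈ D
      · right; left
        rw [hd, Set.indicator_of_mem h1]
      · by_cases h2 : ‖zl t‖ < ℓ ^ (κ - δ)
        · right; right; left; exact h2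
        · by_cases h3 : ℓ ^ (κ + δ) < ‖zl t‖
          · right; right; right; exact h3
          · left
            rw [hp, Set.indicator_of_mem]
            rw [hG]
            exact ⟨h1, not_lt.mp h2, not_lt.mp h3⟩
    have h := point_all n K hK hn ‖zl t‖ ‖CL α N t‖ e e (ℓ ^ (κ - δ)) (ℓ ^ (κ + δ)) m m₃ p d
      (norm_nonneg _) (norm_nonneg _) he0 he0 hm0 hm30 hVa hVb hp0 hd0 hcase
    have h' := mul_le_mul_of_nonneg_right h (hg0 t)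
    have eG : G.indicator (fun t => ‖zl t‖ ^ ((n:ℝ) / K) * gw τ H t) t =
        p * (‖zl t‖ ^ ((n:ℝ) / K) * gw τ H t) := by
      rw [hp]
      by_cases h1 : t ∈ G
      · rw [Set.indicator_of_mem h1, Set.indicator_of_mem h1, one_mul]
      · rw [Set.indicator_of_notMem h1, Set.indicator_of_notMem h1, zero_mul]
    have eD : D.indicator (fun t => gw τ H t) t = d * gw τ H t := by
      rw [hd]
      by_cases h1 : t ∈ D
      · rw [Set.indicator_of_mem h1, Set.indicator_of_mem h1, one_mul]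
      · rw [Set.indicator_of_notMem h1, Set.indicator_of_notMem h1, zero_mul]
    rw [hF, hf₁, hf₂, hf₃, hf₄]
    simp only
    rw [eG, eD, ← hm2n]
    refine h'.trans (le_of_eq ?_)
    ring
  rw [integral_add s1234 iF, integral_add s123 s4, integral_add s12 s3, integral_add s1 s2, integral_const_mul, integral_const_mul,
    integral_const_mul, integral_const_mul] at hle
  have u1 : ∫ t in I, f₁ t ≤ 5 * Lam * (C₃ * ℓ ^ (κ ^ 2)) := by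
    refine (setIntegral_le_integral i3 (Eventually.of_forall fun t => ?_)).trans (j3.trans ?_)
    · rw [hf₁]; have := hg0 t; simp only [Pi.zero_apply]; positivity
    · gcongr
  have u3 : ∫ t in I, f₃ t ≤ 5 * Lam * (C₄ * ℓ ^ ((κ + α) ^ 2)) := by
    refine (setIntegral_le_integral i4 (Eventually.of_forall fun t => ?_)).trans (j4.trans ?_)
    · rw [hf₃]; have := hg0 t; simp only [Pi.zero_apply]; positivity
    · gcongr
  have u4 : ∫ t in I, f₄ t ≤ 5 * Lam * (C₅ * ℓ ^ ((κ - α) ^ 2)) := by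
    refine (setIntegral_le_integral i5 (Eventually.of_forall fun t => ?_)).trans (j5.trans ?_)
    · rw [hf₄]; have := hg0 t; simp only [Pi.zero_apply]; positivity
    · gcongr
  obtain ⟨P, hP⟩ : ∃ P : ℝ, P = ℓ ^ (κ ^ 2) := ⟨_, rfl⟩
  rw [← hP] at k1 k2' u1 g6 g7 ⊢
  have hP0 : 0 ≤ P := by rw [hP]; positivity
  have v1 : (e + e) * (∫ t in I, f₁ t) + e * (∫ t in I, f₂ t) ≤ c₀ / 4 * P := by
    calc (e + e) * (∫ t in I, f₁ t) + e * (∫ t in I, f₂ t) ≤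
        (e + e) * (5 * Lam * (C₃ * P)) + e * (C₂ * P) := by gcongr
      _ ≤ 2 * (e * W) * P := by
          rw [hW]
          have h1 : 0 ≤ e * C₂ * P := by positivity
          have h2 : 2 * (e * (5 * Lam * C₃ + C₂)) * P = (e + e) * (5 * Lam * (C₃ * P)) + e * (C₂ * P) +
              e * C₂ * P := by ring
          rw [h2]
          exact le_add_of_nonneg_right h1
      _ ≤ c₀ / 4 * P := by
          rw [heW]
          have h1 : 0 ≤ c₀ * P := by positivity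
          have h2 : 2 * (c₀ / 16) * P = c₀ * P / 8 := by ring
          have h3 : c₀ / 4 * P = c₀ * P / 8 + c₀ * P / 8 := by ring
          rw [h2, h3]
          exact le_add_of_nonneg_right (by positivity)
  have v3 : e⁻¹ * (m ^ 2)⁻¹ * (∫ t in I, f₃ t) ≤ c₀ / 8 * P := by
    calc e⁻¹ * (m ^ 2)⁻¹ * (∫ t in I, f₃ t) ≤ e⁻¹ * (m ^ 2)⁻¹ * (5 * Lam * (C₄ * ℓ ^ ((κ + α) ^ 2))) := by
          gcongr
      _ = e⁻¹ * (5 * Lam * C₄) * ((m ^ 2)⁻¹ * ℓ ^ ((κ + α) ^ 2)) := by ring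
      _ = c₀ / 8 * (8 * (e⁻¹ * (5 * Lam * C₄)) / c₀ * ℓ ^ E) := by rw [hm4]; field_simp
      _ ≤ c₀ / 8 * P := by gcongr
  have v4 : e⁻¹ * m₃ ^ 2 * (∫ t in I, f₄ t) ≤ c₀ / 8 * P := by
    calc e⁻¹ * m₃ ^ 2 * (∫ t in I, f₄ t) ≤ e⁻¹ * m₃ ^ 2 * (5 * Lam * (C₅ * ℓ ^ ((κ - α) ^ 2))) := by
          gcongr
      _ = e⁻¹ * (5 * Lam * C₅) * (m₃ ^ 2 * ℓ ^ ((κ - α) ^ 2)) := by ring
      _ = c₀ / 8 * (8 * (e⁻¹ * (5 * Lam * C₅)) / c₀ * ℓ ^ E) := by rw [hm5]; field_simp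
      _ ≤ c₀ / 8 * P := by gcongr
  linarith

end

end Pool.Agent.W5h76.KS
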