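import Pool.Agent.W5h76.KS.D

set_option autoImplicit false

/-! Averaging over the windows: the moments on the critical level, off a deleted set. -/

namespace Pool.Agent.W5h76.KS

open Finset MeasureTheory Filter Topology
open Pool.Agent.H306R2
open Pool.Agent.R311.BS (ev_rpow_ge gw_uncurry gw_lint)
open Pool.Agent.R311.SE (zl zl_cont ev_logpow)

noncomputable section

/-- averaging over the windows, for measurable functions -/
theorem avg (F : ℝ → ENNReal) (hF : Measurable F) (S : Set ℝ) (w : ℝ → ℝ → ℝ)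
    (hw : Continuous (Function.uncurry w)) (hw1 : ∀ t, ∫⁻ τ, ENNReal.ofReal (w τ t) ≤ 1) (a b : ℝ)
    (J : ENNReal) (h : ∀ τ ∈ Set.Icc a b, J ≤ ∫⁻ t in S, F t * ENNReal.ofReal (w τ t)) :
    ENNReal.ofReal (b - a) * J ≤ ∫⁻ t in S, F t := by
  have e2 : ENNReal.ofReal (b - a) * J = ∫⁻ _τ in Set.Icc a b, J := by
    rw [setLIntegral_const, Real.volume_Icc, mul_comm]
  rw [e2]
  have hmeasw : Measurable (fun p : ℝ × ℝ => ENNReal.ofReal (w p.1 p.2)) :=
    (ENNReal.continuous_ofReal.comp hw).measurable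
  calc ∫⁻ _τ in Set.Icc a b, J ≤ ∫⁻ τ in Set.Icc a b, ∫⁻ t in S, F t * ENNReal.ofReal (w τ t) :=
        setLIntegral_mono' measurableSet_Icc fun τ hτ => h τ hτ
    _ ≤ ∫⁻ τ, ∫⁻ t in S, F t * ENNReal.ofReal (w τ t) := setLIntegral_le_lintegral _ _
    _ = ∫⁻ t in S, ∫⁻ τ, F t * ENNReal.ofReal (w τ t) := by
        rw [lintegral_lintegral_swap]
        exact ((hF.comp measurable_snd).mul hmeasw).aemeasurable
    _ ≤ ∫⁻ t in S, F t := by
        refine lintegral_mono fun t => ?_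
        have : Measurable (fun τ : ℝ => ENNReal.ofReal (w τ t)) :=
          hmeasw.comp (by fun_prop : Measurable (fun τ : ℝ => (τ, t)))
        rw [lintegral_const_mul _ this]
        calc F t * ∫⁻ τ, ENNReal.ofReal (w τ t) ≤ F t * 1 := by gcongr; exact hw1 t
          _ = F t := mul_one _

/-- the theorem with the parameters `n`, `K` -/
theorem main (n K : ℕ) (hK : 1 ≤ K) (hn : 2 * K ≤ n) (ε δ B : ℝ) (hε : 0 < ε)
    (hδ : 1 / (2 * (K:ℝ)) < δ) (hB : (n:ℝ) * (n + 1) / (2 * K ^ 2) - B < ((n:ℝ) / (2 * K)) ^ 2) :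
    ∃ c : ℝ, 0 < c ∧ ∀ᶠ T : ℝ in atTop, ∀ H : ℝ, T ^ (1 / 2 + ε) ≤ H → H ≤ T →
      ∀ D : Set ℝ, MeasurableSet D →
      volume (D ∩ Set.Icc T (T + H)) ≤ ENNReal.ofReal (H * Real.log T ^ (-B)) →
      c * H * Real.log T ^ (((n:ℝ) / (2 * K)) ^ 2) ≤
        ∫ t in Set.Icc T (T + H) ∩
          (Dᶜ ∩ Lev (Real.log T ^ ((n:ℝ) / (2 * K) - δ)) (Real.log T ^ ((n:ℝ) / (2 * K) + δ))),
          ‖zl t‖ ^ ((n:ℝ) / K) := by
  obtain ⟨η, hη⟩ : ∃ η : ℝ, η = min (ε / 6) (1 / 100) := ⟨_, rfl⟩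
  have hη0 : 0 < η := by rw [hη]; exact lt_min (by positivity) (by norm_num)
  have hη1 : η ≤ 1 / 100 := by rw [hη]; exact min_le_right _ _
  have hη2 : η ≤ ε / 6 := by rw [hη]; exact min_le_left _ _
  obtain ⟨c, C, M, hc, hC, hM, hw⟩ := window n K hK hn η δ hη0 hη1 hδ
  obtain ⟨κ, hκ⟩ : ∃ κ : ℝ, κ = (n:ℝ) / (2 * K) := ⟨_, rfl⟩
  obtain ⟨b, hb⟩ : ∃ b : ℝ, b = (n:ℝ) * (n + 1) / (2 * K ^ 2) := ⟨_, rfl⟩
  obtain ⟨q, hq⟩ : ∃ q : ℝ, q = (n:ℝ) / K := ⟨_, rfl⟩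
  have hq0 : 0 ≤ q := by rw [hq]; positivity
  rw [← hκ, ← hb] at hB
  rw [← hκ, ← hq]
  rw [← hκ, ← hb, ← hq] at hw
  refine ⟨c / (4 * C), by positivity, ?_⟩
  filter_upwards [hw, ev_rpow_ge 4 (ε / 2) (by positivity), ev_logpow (4 * M / c) (b - B) (κ ^ 2) hB,
    Real.tendsto_log_atTop.eventually_ge_atTop 1, eventually_ge_atTop 1]
    with T hT h4 g1 hL1 hT1 H hH1 hH2 D hD hDm
  have hT0 : 0 < T := by linarith
  obtain ⟨ℓ, hℓ⟩ : ∃ ℓ : ℝ, ℓ = Real.log T := ⟨_, rfl⟩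
  rw [← hℓ] at hL1 g1 hDm ⊢
  have hℓ0 : 0 < ℓ := by linarith
  obtain ⟨R, hR⟩ : ∃ R : ℝ, R = T ^ (1 / 2 + 3 * η) := ⟨_, rfl⟩
  have hR0 : 0 < R := by rw [hR]; positivity
  have hRH : 4 * R ≤ H := by
    refine le_trans ?_ hH1
    calc 4 * R ≤ T ^ (ε / 2) * T ^ (1 / 2 + 3 * η) := by rw [hR]; gcongr
      _ = T ^ (ε / 2 + (1 / 2 + 3 * η)) := by rw [← Real.rpow_add hT0]
      _ ≤ T ^ (1 / 2 + ε) := Real.rpow_le_rpow_of_exponent_le hT1 (by linarith)
  have hH0 : 0 < H := by linarith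
  obtain ⟨Δ, hΔ⟩ : ∃ Δ : ℝ, Δ = T ^ (1 / 2 + 2 * η) := ⟨_, rfl⟩
  have hΔ0 : 0 < Δ := by rw [hΔ]; positivity
  rw [← hR, ← hℓ, ← hΔ] at hT
  obtain ⟨G, hG⟩ : ∃ G : Set ℝ, G = Dᶜ ∩ Lev (ℓ ^ (κ - δ)) (ℓ ^ (κ + δ)) := ⟨_, rfl⟩
  have hGm : MeasurableSet G := by rw [hG]; exact hD.compl.inter (Lev_meas _ _)
  rw [← hG]
  obtain ⟨S, hS⟩ : ∃ S : Set ℝ, S = Set.Icc T (T + H) := ⟨_, rfl⟩
  have hSm : MeasurableSet S := by rw [hS]; exact measurableSet_Icc
  rw [← hS] at hDm ⊢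
  have cz := zl_cont
  have cq : Continuous fun t : ℝ => ‖zl t‖ ^ q := cz.norm.rpow_const fun t => Or.inr hq0
  obtain ⟨M', hM'⟩ : ∃ M' : ℝ, M' = M * ℓ ^ b := ⟨_, rfl⟩
  have hM'0 : 0 ≤ M' := by rw [hM']; positivity
  -- the function to be averaged
  obtain ⟨F, hF⟩ : ∃ F : ℝ → ENNReal, F = fun t => ENNReal.ofReal C * G.indicator (fun t => ENNReal.ofReal (‖zl t‖ ^ q)) t +
    ENNReal.ofReal M' * D.indicator (fun _ => (1:ENNReal)) t := ⟨_, rfl⟩
  have hqm : Measurable (fun t : ℝ => ENNReal.ofReal (‖zl t‖ ^ q)) :=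
    (ENNReal.continuous_ofReal.comp cq).measurable
  have hFm : Measurable F := by
    rw [hF]
    exact ((hqm.indicator hGm).const_mul _).add ((measurable_const.indicator hD).const_mul _)
  have hav := avg F hFm S (fun τ t => gw τ Δ t) (gw_uncurry _) (gw_lint _ hΔ0) (T + R) (T + H - R)
    (ENNReal.ofReal (c * ℓ ^ (κ ^ 2))) (by
      intro τ hτ
      have h1 := hT τ (by linarith [hτ.1]) (by linarith [hτ.2]) D hD
      rw [← hG, ← hM'] at h1
      obtain ⟨I, hI⟩ : ∃ I : Set ℝ, I = Set.Ioc (τ - R) (τ + R) := ⟨_, rfl⟩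
      rw [← hI] at h1
      have hIS : I ⊆ S := by
        rw [hI, hS]
        intro t ht
        exact ⟨by linarith [ht.1, hτ.1], by linarith [ht.2, hτ.2]⟩
      have cg := gw_continuous τ Δ
      have hg0 := fun t => gw_nonneg τ Δ t hΔ0
      have hcIr : ∀ F : ℝ → ℝ, Continuous F → IntegrableOn F I := fun F hF => by
        rw [hI]
        exact (hF.integrableOn_Icc (a := τ - R) (b := τ + R)).mono_set Set.Ioc_subset_Icc_self
      have iF : IntegrableOn (fun t => C * G.indicator (fun t => ‖zl t‖ ^ q * gw τ Δ t) t +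
          M' * D.indicator (fun t => gw τ Δ t) t) I :=
        (((hcIr _ (cq.mul cg)).indicator hGm).const_mul _).add (((hcIr _ cg).indicator hD).const_mul _)
      have hpt : ∀ t : ℝ, ENNReal.ofReal (C * G.indicator (fun t => ‖zl t‖ ^ q * gw τ Δ t) t +
          M' * D.indicator (fun t => gw τ Δ t) t) = F t * ENNReal.ofReal (gw τ Δ t) := by
        intro t
        have a1 : 0 ≤ ‖zl t‖ ^ q := by positivity
        have a2 := hg0 t
        have b1 : 0 ≤ G.indicator (fun t => ‖zl t‖ ^ q * gw τ Δ t) t :=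
          Set.indicator_nonneg (fun t _ => mul_nonneg (by positivity) (hg0 t)) t
        have b2 : 0 ≤ D.indicator (fun t => gw τ Δ t) t := Set.indicator_nonneg (fun t _ => hg0 t) t
        rw [ENNReal.ofReal_add (by positivity) (by positivity), ENNReal.ofReal_mul hC.le,
          ENNReal.ofReal_mul hM'0, hF]
        simp only
        rw [add_mul]
        congr 1
        · rw [mul_assoc]
          congr 1
          by_cases h : t ∈ G
          · rw [Set.indicator_of_mem h, Set.indicator_of_mem h, ENNReal.ofReal_mul a1]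
          · rw [Set.indicator_of_notMem h, Set.indicator_of_notMem h]; simp
        · rw [mul_assoc]
          congr 1
          by_cases h : t ∈ D
          · rw [Set.indicator_of_mem h, Set.indicator_of_mem h, one_mul]
          · rw [Set.indicator_of_notMem h, Set.indicator_of_notMem h]; simp
      have hnn : ∀ t : ℝ, 0 ≤ C * G.indicator (fun t => ‖zl t‖ ^ q * gw τ Δ t) t +
          M' * D.indicator (fun t => gw τ Δ t) t := by
        intro t
        have b1 : 0 ≤ G.indicator (fun t => ‖zl t‖ ^ q * gw τ Δ t) t :=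
          Set.indicator_nonneg (fun t _ => mul_nonneg (by positivity) (hg0 t)) t
        have b2 : 0 ≤ D.indicator (fun t => gw τ Δ t) t := Set.indicator_nonneg (fun t _ => hg0 t) t
        positivity
      calc ENNReal.ofReal (c * ℓ ^ (κ ^ 2)) ≤ ENNReal.ofReal (∫ t in I,
            (C * G.indicator (fun t => ‖zl t‖ ^ q * gw τ Δ t) t + M' * D.indicator (fun t => gw τ Δ t) t)) :=
            ENNReal.ofReal_le_ofReal h1
        _ = ∫⁻ t in I, F t * ENNReal.ofReal (gw τ Δ t) := by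
            rw [ofReal_integral_eq_lintegral_ofReal iF (Eventually.of_forall hnn)]
            exact lintegral_congr fun t => hpt t
        _ ≤ ∫⁻ t in S, F t * ENNReal.ofReal (gw τ Δ t) := lintegral_mono_set hIS)
  -- the integral of F
  have iX : IntegrableOn (fun t : ℝ => ‖zl t‖ ^ q) (S ∩ G) := by
    rw [hS]
    exact cq.integrableOn_Icc.mono_set Set.inter_subset_left
  have e1 : ∫⁻ t in S, F t = ENNReal.ofReal C * ENNReal.ofReal (∫ t in S ∩ G, ‖zl t‖ ^ q) +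
      ENNReal.ofReal M' * volume (D ∩ S) := by
    rw [hF, lintegral_add_left ((hqm.indicator hGm).const_mul _), lintegral_const_mul _ (hqm.indicator hGm),
      lintegral_const_mul _ (measurable_const.indicator hD)]
    congr 2
    · rw [lintegral_indicator hGm, Measure.restrict_restrict hGm, Set.inter_comm,
        ofReal_integral_eq_lintegral_ofReal iX (Eventually.of_forall fun t => by
          simp only [Pi.zero_apply]; positivity)]
    · rw [lintegral_indicator hD, Measure.restrict_restrict hD, lintegral_one, Measure.restrict_apply_univ]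
  obtain ⟨X, hX⟩ : ∃ X : ℝ, X = ∫ t in S ∩ G, ‖zl t‖ ^ q := ⟨_, rfl⟩
  have hX0 : 0 ≤ X := by
    rw [hX]
    exact setIntegral_nonneg (hSm.inter hGm) fun t _ => by positivity
  rw [e1, ← hX] at hav
  rw [← hX]
  have hreal : (T + H - R - (T + R)) * (c * ℓ ^ (κ ^ 2)) ≤ C * X + M' * (H * ℓ ^ (-B)) := by
    have h1 : ENNReal.ofReal ((T + H - R - (T + R)) * (c * ℓ ^ (κ ^ 2))) ≤
        ENNReal.ofReal (C * X + M' * (H * ℓ ^ (-B))) := by
      rw [ENNReal.ofReal_mul (by linarith), ENNReal.ofReal_add (by positivity) (by positivity),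
        ENNReal.ofReal_mul hC.le, ENNReal.ofReal_mul hM'0]
      refine hav.trans ?_
      gcongr
    exact (ENNReal.ofReal_le_ofReal_iff (by positivity)).mp h1
  have hP0 : 0 ≤ ℓ ^ (κ ^ 2) := by positivity
  have h5 : M' * (H * ℓ ^ (-B)) ≤ c / 4 * H * ℓ ^ (κ ^ 2) := by
    have e3 : M' * (H * ℓ ^ (-B)) = c / 4 * H * (4 * M / c * ℓ ^ (b - B)) := by
      rw [hM', sub_eq_add_neg, Real.rpow_add hℓ0]
      field_simp
    rw [e3]
    gcongr
  have h6 : c / 2 * H * ℓ ^ (κ ^ 2) ≤ (T + H - R - (T + R)) * (c * ℓ ^ (κ ^ 2)) := by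
    have : 0 ≤ c * ℓ ^ (κ ^ 2) := by positivity
    nlinarith
  have h7 : c / 4 * H * ℓ ^ (κ ^ 2) ≤ C * X := by linarith
  calc c / (4 * C) * H * ℓ ^ (κ ^ 2) = (c / 4 * H * ℓ ^ (κ ^ 2)) / C := by field_simp
    _ ≤ C * X / C := by gcongr
    _ = X := by field_simp

/-- the theorem for rational exponents -/
theorem main_rat (a b : ℕ) (hb : 1 ≤ b) (hab : 2 * b ≤ a) (ε δ B : ℝ) (hε : 0 < ε) (hδ : 0 < δ)
    (hB : ((a:ℝ) / b) ^ 2 / 4 < B) :
    ∃ c : ℝ, 0 < c ∧ ∀ᶠ T : ℝ in atTop, ∀ H : ℝ, T ^ (1 / 2 + ε) ≤ H → H ≤ T →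
      ∀ D : Set ℝ, MeasurableSet D →
      volume (D ∩ Set.Icc T (T + H)) ≤ ENNReal.ofReal (H * Real.log T ^ (-B)) →
      c * H * Real.log T ^ (((a:ℝ) / b) ^ 2 / 4) ≤
        ∫ t in Set.Icc T (T + H) ∩
          (Dᶜ ∩ Lev (Real.log T ^ ((a:ℝ) / b / 2 - δ)) (Real.log T ^ ((a:ℝ) / b / 2 + δ))),
          ‖zl t‖ ^ ((a:ℝ) / b) := by
  have hbr : (0:ℝ) < b := by exact_mod_cast hb
  obtain ⟨q, hq⟩ : ∃ q : ℝ, q = (a:ℝ) / b := ⟨_, rfl⟩
  have hq0 : 0 ≤ q := by rw [hq]; positivity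
  obtain ⟨j, hj⟩ := exists_nat_gt (1 / (2 * δ) + q / (2 * (B - q ^ 2 / 4)))
  rw [← hq] at hB
  have hBq : 0 < B - q ^ 2 / 4 := by linarith
  have hj0 : (0:ℝ) < j := lt_of_le_of_lt (by positivity) hj
  have hj1 : 1 ≤ j := by exact_mod_cast hj0
  have hbj : (j:ℝ) ≤ ((b * j : ℕ) : ℝ) := by
    push_cast
    have : (1:ℝ) ≤ b := by exact_mod_cast hb
    nlinarith
  have hKr0 : (0:ℝ) < ((b * j : ℕ) : ℝ) := by linarith
  have hnK : ((a * j : ℕ) : ℝ) = q * ((b * j : ℕ) : ℝ) := by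
    rw [hq]; push_cast; field_simp
  obtain ⟨c, hc, h⟩ := main (a * j) (b * j) (Nat.mul_pos hb hj1) (by nlinarith) ε δ B hε (by
    rw [div_lt_iff₀ (by positivity)]
    have h1 : 1 / (2 * δ) < j := lt_of_le_of_lt (le_add_of_nonneg_right (by positivity)) hj
    rw [div_lt_iff₀ (by positivity)] at h1
    nlinarith) (by
    rw [hnK]
    have h1 : q / (2 * (B - q ^ 2 / 4)) < j := lt_of_le_of_lt (le_add_of_nonneg_left (by positivity)) hj
    rw [div_lt_iff₀ (by positivity)] at h1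
    have e1 : q * ((b * j : ℕ) : ℝ) * (q * ((b * j : ℕ) : ℝ) + 1) / (2 * ((b * j : ℕ) : ℝ) ^ 2) =
        q ^ 2 / 2 + q / (2 * ((b * j : ℕ) : ℝ)) := by
      field_simp
    have e2 : (q * ((b * j : ℕ) : ℝ) / (2 * ((b * j : ℕ) : ℝ))) ^ 2 = q ^ 2 / 4 := by
      field_simp; ring
    rw [e1, e2]
    have h2 : q / (2 * ((b * j : ℕ) : ℝ)) < B - q ^ 2 / 4 := by
      rw [div_lt_iff₀ (by positivity)]
      nlinarith
    linarith)
  refine ⟨c, hc, ?_⟩
  have e1 : ((a * j : ℕ) : ℝ) / (2 * ((b * j : ℕ) : ℝ)) = q / 2 := by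
    rw [hnK]; field_simp
  have e2 : ((a * j : ℕ) : ℝ) / ((b * j : ℕ) : ℝ) = q := by
    rw [hnK]; field_simp
  have e3 : (q / 2) ^ 2 = q ^ 2 / 4 := by ring
  rw [e1, e2, e3] at h
  rw [← hq]
  exact h

end

end Pool.Agent.W5h76.KS
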